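import Pool.Agent.Q145.HC.All
import Pool.Agent.Q151.SZ.Lsb
import Pool.Agent.Q238.HC.HYBL
import Pool.Agent.Q241.HC.MSL

/-!
# Project HC: the last step
-/

set_option autoImplicit false

namespace Pool.Agent.Q145.HC

open Finset Filter
open Pool.Agent.Q145.SZ

theorem hyb' : S_HYBL' := Pool.Agent.Q238.HC.t_HYBL mbl' Pool.Agent.Q145.SZ.t_LSB t_KTL Pool.Agent.Q223.HC.t_DSP

theorem sufh' : S_SUFHs := sufh_of hyb' Pool.Agent.Q241.HC.t_MSL

end Pool.Agent.Q145.HC
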