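import Pool.Agent.Q145.HC.Stm

/-!
# Project HC: from pairs to the law of the signs
-/

set_option autoImplicit false

namespace Pool.Agent.Q145.HC

open Finset Filter Complex
open Pool.Agent.Q145.SZ

lemma lm_cases (n : ℕ) : lm n = 1 ∨ lm n = -1 := by
  unfold lm
  rcases Nat.even_or_odd (ArithmeticFunction.cardFactors n) with h | h
  · left; exact h.neg_one_pow
  · right; exact h.neg_one_pow

lemma lm_abs (n : ℕ) : |lm n| = 1 := by
  rcases lm_cases n with h | h <;> rw [h] <;> norm_num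

lemma lm_sq (n : ℕ) : lm n * lm n = 1 := by
  rcases lm_cases n with h | h <;> rw [h] <;> norm_num

/-- the points of the tuple -/
def pts {K : ℕ} (X : ℕ) (s : Fin K → ℕ) : Finset ℕ := (Ioc X (2 * X)).filter fun n => ∀ i, (n + s i).Prime

lemma pts_card {K : ℕ} (X : ℕ) (s : Fin K → ℕ) : (pts X s).card = cnt X s := rfl

/-- the number of points with given signs -/
noncomputable def sg {K L : ℕ} (X : ℕ) (s : Fin K → ℕ) (t : Fin L → ℕ) (e : Fin L → ℝ) : ℕ :=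
  ((pts X s).filter fun n => ∀ j, lm (n + t j) = e j).card

/-- weighted sums of `f (n + t)` -/
lemma wgt (X : ℕ) (P : Finset ℕ) (E : Finset (ℕ × ℕ)) (f : ℕ → ℝ) (w : ℕ → ℂ) (δ : ℝ) (hδ : 0 ≤ δ) (hf : ∀ n, |f n| = 1)
    (hw : ∀ n, ‖w n‖ ≤ 1)
    (hE : ∀ n ∈ P, ∀ m ∈ P, (n, m) ∉ E → |∑ t ∈ Icc 1 X, f (n + t) * f (m + t)| ≤ δ * X) :
    ∑ t ∈ Icc 1 X, ‖∑ n ∈ P, w n * ((f (n + t) : ℝ) : ℂ)‖ ^ 2 ≤
      X * (δ * (P.card : ℝ) ^ 2 + (((P ×ˢ P).filter fun q => q ∈ E).card : ℝ)) := by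
  have h1 : ∀ t, ‖∑ n ∈ P, w n * ((f (n + t) : ℝ) : ℂ)‖ ^ 2 =
      (∑ n ∈ P, ∑ m ∈ P, w n * (starRingEnd ℂ) (w m) * ((f (n + t) * f (m + t) : ℝ) : ℂ)).re := by
    intro t
    have h2 : ((‖∑ n ∈ P, w n * ((f (n + t) : ℝ) : ℂ)‖ ^ 2 : ℝ) : ℂ) =
        ∑ n ∈ P, ∑ m ∈ P, w n * (starRingEnd ℂ) (w m) * ((f (n + t) * f (m + t) : ℝ) : ℂ) := by
      push_cast
      rw [← Complex.mul_conj', map_sum, sum_mul_sum]
      refine sum_congr rfl fun n _ => sum_congr rfl fun m _ => ?_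
      rw [map_mul, Complex.conj_ofReal]
      ring
    rw [← h2, Complex.ofReal_re]
  have h3 : ∑ t ∈ Icc 1 X, ‖∑ n ∈ P, w n * ((f (n + t) : ℝ) : ℂ)‖ ^ 2 =
      (∑ q ∈ P ×ˢ P, w q.1 * (starRingEnd ℂ) (w q.2) * ((∑ t ∈ Icc 1 X, f (q.1 + t) * f (q.2 + t) : ℝ) : ℂ)).re := by
    rw [sum_congr rfl fun t _ => h1 t, ← Complex.re_sum]
    congr 1
    rw [sum_product]
    rw [sum_comm]
    refine sum_congr rfl fun n _ => ?_
    rw [sum_comm]
    refine sum_congr rfl fun m _ => ?_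
    rw [Complex.ofReal_sum, mul_sum]
  rw [h3]
  refine (Complex.re_le_norm _).trans ?_
  refine (norm_sum_le _ _).trans ?_
  have h4 : ∀ q ∈ P ×ˢ P, ‖w q.1 * (starRingEnd ℂ) (w q.2) * ((∑ t ∈ Icc 1 X, f (q.1 + t) * f (q.2 + t) : ℝ) : ℂ)‖ ≤
      δ * X + (if q ∈ E then (X : ℝ) else 0) := by
    intro q hq
    rw [mem_product] at hq
    rw [norm_mul, norm_mul, RCLike.norm_conj, Complex.norm_real, Real.norm_eq_abs]
    have h5 : ‖w q.1‖ * ‖w q.2‖ ≤ 1 := mul_le_one₀ (hw _) (norm_nonneg _) (hw _)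
    have h6 : |∑ t ∈ Icc 1 X, f (q.1 + t) * f (q.2 + t)| ≤ δ * X + (if q ∈ E then (X : ℝ) else 0) := by
      by_cases hqE : q ∈ E
      · rw [if_pos hqE]
        have h7 : |∑ t ∈ Icc 1 X, f (q.1 + t) * f (q.2 + t)| ≤ X := by
          refine (abs_sum_le_sum_abs _ _).trans ?_
          refine (sum_le_sum fun t _ => (by rw [abs_mul, hf, hf, one_mul] : |f (q.1 + t) * f (q.2 + t)| ≤ 1)).trans ?_
          simp
        have : 0 ≤ δ * X := by positivity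
        linarith
      · rw [if_neg hqE, add_zero]
        exact hE q.1 hq.1 q.2 hq.2 hqE
    calc _ ≤ 1 * |∑ t ∈ Icc 1 X, f (q.1 + t) * f (q.2 + t)| := by gcongr
      _ ≤ _ := by rw [one_mul]; exact h6
  refine (sum_le_sum h4).trans (le_of_eq ?_)
  rw [sum_add_distrib, sum_const, nsmul_eq_mul, card_product, ← sum_filter, sum_const, nsmul_eq_mul]
  push_cast
  ring

end Pool.Agent.Q145.HC
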