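import Pool.Agent.Q237.HC.Sgn
import Pool.Agent.Q145.HC.LawA

/-!
# Project HC: the weighted second moment over the shifts of the Liouville factors
(after the unweighted version of helper237)
-/

set_option autoImplicit false

namespace Pool.Agent.Q145.HC

open Finset Complex

/-- The signs of `f` at the shifted points are independent of each other and of any weight, in mean square over the shifts. -/
theorem sgnw (X L : ℕ) (P : Finset ℕ) (E : Finset (ℕ × ℕ)) (f : ℕ → ℝ) (ε : Fin L → ℝ) (δ : ℝ) (w : ℕ → ℂ) (hX : 1 ≤ X) (hδ : 0 ≤ δ)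
    (hL : 3 * L * δ ≤ 1) (hf : ∀ n, f n = 1 ∨ f n = -1) (hε : ∀ j, ε j = 1 ∨ ε j = -1) (hw : ∀ n, ‖w n‖ ≤ 1)
    (h1 : ∀ n ∈ P, |∑ t ∈ Icc 1 X, f (n + t)| ≤ δ * X)
    (h2 : ∀ n ∈ P, ∀ m ∈ P, (n, m) ∉ E → |∑ t ∈ Icc 1 X, f (n + t) * f (m + t)| ≤ δ * X) :
    ∑ t ∈ Fintype.piFinset (fun _ : Fin L => Icc 1 X), ‖(2 : ℂ) ^ L * (∑ n ∈ P.filter fun n => ∀ j, f (n + t j) = ε j, w n) - ∑ n ∈ P, w n‖ ^ 2 ≤
      (X : ℝ) ^ L * (10 * L * δ * (P.card : ℝ) ^ 2 + 2 ^ (L + 2) * (((P ×ˢ P).filter fun q => q ∈ E).card : ℝ)) := by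
  classical
  have hX0 : (0 : ℝ) < X := by exact_mod_cast hX
  obtain ⟨x, hx⟩ : ∃ x : ℕ → (Fin L → ℕ) → ℝ, x = fun n t => ∏ j, (1 + ε j * f (n + t j)) :=
    ⟨_, rfl⟩
  obtain ⟨T, hT⟩ : ∃ T : Finset (Fin L → ℕ), T = Fintype.piFinset (fun _ : Fin L => Icc 1 X) :=
    ⟨_, rfl⟩
  obtain ⟨S, hS⟩ : ∃ S : ℕ → ℝ, S = fun n => (∑ t ∈ Icc 1 X, f (n + t)) / X := ⟨_, rfl⟩
  obtain ⟨C, hC⟩ : ∃ C : ℕ → ℕ → ℝ,
    C = fun n m => (∑ t ∈ Icc 1 X, f (n + t) * f (m + t)) / X := ⟨_, rfl⟩
  have hcardI : ((Icc 1 X).card : ℝ) = X := by simp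
  have hTc : (∑ _t ∈ T, (1 : ℝ)) = (X : ℝ) ^ L := by
    rw [hT, sum_const, nsmul_eq_mul, mul_one, Fintype.card_piFinset]
    simp
  -- the indicator
  have hxv : ∀ n t, x n t = if ∀ j, f (n + t j) = ε j then (2 : ℝ) ^ L else 0 := by
    intro n t
    rw [hx]
    simp only
    split_ifs with h
    · have : ∀ j : Fin L, 1 + ε j * f (n + t j) = 2 := by
        intro j
        rw [h j]
        rcases hε j with e | e <;> rw [e] <;> norm_num
      rw [prod_congr rfl fun j _ => this j, prod_const, card_univ, Fintype.card_fin]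
    · push Not at h
      obtain ⟨j, hj⟩ := h
      refine prod_eq_zero (mem_univ j) ?_
      rcases hε j with e | e <;> rcases hf (n + t j) with e' | e'
      · exact absurd (e'.trans e.symm) hj
      · rw [e, e']; norm_num
      · rw [e, e']; norm_num
      · exact absurd (e'.trans e.symm) hj
  have hcount : ∀ t, (2 : ℂ) ^ L * (∑ n ∈ P.filter fun n => ∀ j, f (n + t j) = ε j, w n) - ∑ n ∈ P, w n =
      ∑ n ∈ P, w n * (((x n t - 1 : ℝ)) : ℂ) := by
    intro t
    rw [sum_filter, mul_sum, ← sum_sub_distrib]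
    refine sum_congr rfl fun n _ => ?_
    rw [hxv]
    split_ifs
    · push_cast; ring
    · push_cast; ring
  -- first and second moments
  have hprod : ∀ g : Fin L → ℕ → ℝ, ∑ t ∈ T, ∏ j, g j (t j) = ∏ j, ∑ s ∈ Icc 1 X, g j s := by
    intro g
    rw [hT]
    exact (Finset.prod_univ_sum (fun _ : Fin L => Icc 1 X) g).symm
  have hm1 : ∀ n, ∑ t ∈ T, x n t = (X : ℝ) ^ L * ∏ j, (1 + ε j * S n) := by
    intro n
    rw [hx]
    simp only
    rw [hprod (fun j s => 1 + ε j * f (n + s))]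
    have : ∀ j : Fin L, ∑ s ∈ Icc 1 X, (1 + ε j * f (n + s)) = X * (1 + ε j * S n) := by
      intro j
      rw [sum_add_distrib, sum_const, nsmul_eq_mul, mul_one, hcardI, ← mul_sum, hS]
      field_simp
    rw [prod_congr rfl fun j _ => this j, prod_mul_distrib, prod_const, card_univ,
      Fintype.card_fin]
  have hpair : ∀ n m j, ∑ s ∈ Icc 1 X, (1 + ε j * f (n + s)) * (1 + ε j * f (m + s)) =
      (X : ℝ) * (1 + (ε j * S n + ε j * S m + C n m)) := by
    intro n m j
    have e1 : ∀ s ∈ Icc 1 X, (1 + ε j * f (n + s)) * (1 + ε j * f (m + s)) =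
        ((1 + ε j * f (n + s)) + ε j * f (m + s)) + f (n + s) * f (m + s) := by
      intro s _
      rcases hε j with e | e <;> rw [e] <;> ring
    rw [sum_congr rfl e1, sum_add_distrib, sum_add_distrib, sum_add_distrib, sum_const,
      nsmul_eq_mul, mul_one, hcardI, ← mul_sum, ← mul_sum, hS, hC]
    field_simp
    ring
  have hm2 : ∀ n m, ∑ t ∈ T, x n t * x m t =
      (X : ℝ) ^ L * ∏ j, (1 + (ε j * S n + ε j * S m + C n m)) := by
    intro n m
    rw [hx]
    simp only [← prod_mul_distrib]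
    rw [hprod (fun j s => (1 + ε j * f (n + s)) * (1 + ε j * f (m + s)))]
    rw [prod_congr rfl fun j _ => hpair n m j, prod_mul_distrib, prod_const, card_univ,
      Fintype.card_fin]
  have hS1 : ∀ n ∈ P, |S n| ≤ δ := by
    intro n hn
    rw [hS]
    simp only
    rw [abs_div, abs_of_pos hX0, div_le_iff₀ hX0]
    exact h1 n hn
  have hS2 : ∀ n ∈ P, ∀ j, |ε j * S n| ≤ δ := by
    intro n hn j
    rw [abs_mul]
    have : |ε j| = 1 := by rcases hε j with e | e <;> rw [e] <;> norm_num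
    rw [this, one_mul]
    exact hS1 n hn
  have hLd : 0 ≤ (L : ℝ) * δ := mul_nonneg (Nat.cast_nonneg _) hδ
  have hE1 : ∀ n ∈ P, |∏ j, (1 + ε j * S n) - 1| ≤ 2 * (L * δ) := by
    intro n hn
    exact SGN_near (fun j => ε j * S n) δ (hS2 n hn) (by linarith)
  -- the term of a pair
  have hterm : ∀ n ∈ P, ∀ m ∈ P, |∑ t ∈ T, (x n t - 1) * (x m t - 1)| ≤
      (X : ℝ) ^ L * (10 * L * δ + 2 ^ (L + 2) * (if (n, m) ∈ E then (1 : ℝ) else 0)) := by
    intro n hn m hm
    have e1 : ∑ t ∈ T, (x n t - 1) * (x m t - 1) = (X : ℝ) ^ L *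
        (∏ j, (1 + (ε j * S n + ε j * S m + C n m)) - ∏ j, (1 + ε j * S n) -
          ∏ j, (1 + ε j * S m) + 1) := by
      have e2 : ∀ t ∈ T, (x n t - 1) * (x m t - 1) = x n t * x m t - x n t - x m t + 1 :=
        fun t _ => by ring
      rw [sum_congr rfl e2, sum_add_distrib, sum_sub_distrib, sum_sub_distrib, hm2, hm1, hm1, hTc]
      ring
    rw [e1, abs_mul, abs_of_nonneg (by positivity : (0 : ℝ) ≤ (X : ℝ) ^ L)]
    refine mul_le_mul_of_nonneg_left ?_ (by positivity)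
    have a1 := abs_le.1 (hE1 n hn)
    have a2 := abs_le.1 (hE1 m hm)
    by_cases hnm : (n, m) ∈ E
    · rw [if_pos hnm, mul_one]
      have c0 : ∀ j, 0 ≤ 1 + (ε j * S n + ε j * S m + C n m) := by
        intro j
        have e3 := hpair n m j
        have e4 : 0 ≤ ∑ s ∈ Icc 1 X, (1 + ε j * f (n + s)) * (1 + ε j * f (m + s)) := by
          refine sum_nonneg fun s _ => mul_nonneg ?_ ?_
          · rcases hε j with e | e <;> rcases hf (n + s) with e' | e' <;> rw [e, e'] <;> norm_num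
          · rcases hε j with e | e <;> rcases hf (m + s) with e' | e' <;> rw [e, e'] <;> norm_num
        rw [e3] at e4
        exact nonneg_of_mul_nonneg_right e4 hX0
      have b0 : 0 ≤ ∏ j, (1 + (ε j * S n + ε j * S m + C n m)) := prod_nonneg fun j _ => c0 j
      have b1 : ∏ j, (1 + (ε j * S n + ε j * S m + C n m)) ≤ 2 ^ (L + 1) := by
        have c1 : ∀ j, 1 + (ε j * S n + ε j * S m + C n m) ≤ 2 * (1 + δ) := by
          intro j
          have d1 := (abs_le.1 (hS2 n hn j)).2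
          have d2 := (abs_le.1 (hS2 m hm j)).2
          have d3 : C n m ≤ 1 := by
            rw [hC]
            simp only
            rw [div_le_one hX0]
            calc ∑ t ∈ Icc 1 X, f (n + t) * f (m + t) ≤ ∑ _t ∈ Icc 1 X, (1 : ℝ) := by
                  refine sum_le_sum fun s _ => ?_
                  rcases hf (n + s) with e | e <;> rcases hf (m + s) with e' | e' <;>
                    rw [e, e'] <;> norm_num
              _ = X := by rw [sum_const, nsmul_eq_mul, mul_one, hcardI]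
          linarith
        calc ∏ j, (1 + (ε j * S n + ε j * S m + C n m)) ≤ ∏ _j : Fin L, (2 * (1 + δ)) :=
              prod_le_prod (fun j _ => c0 j) fun j _ => c1 j
          _ = 2 ^ L * (1 + δ) ^ L := by
              rw [prod_const, card_univ, Fintype.card_fin, mul_pow]
          _ ≤ 2 ^ L * 2 := by
              refine mul_le_mul_of_nonneg_left ?_ (by positivity)
              have d := SGN_near (L := L) (fun _ => δ) δ (fun _ => by rw [abs_of_nonneg hδ])
                (by linarith)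
              rw [prod_const, card_univ, Fintype.card_fin] at d
              have := (abs_le.1 d).2
              linarith
          _ = 2 ^ (L + 1) := by rw [pow_succ]
      have b2 : (2 : ℝ) ^ (L + 2) = 2 * 2 ^ (L + 1) := by ring
      have b3 : (2 : ℝ) ≤ 2 ^ (L + 1) := by
        calc (2 : ℝ) = 2 ^ 1 := by norm_num
          _ ≤ 2 ^ (L + 1) := pow_le_pow_right₀ (by norm_num) (by omega)
      rw [abs_le, b2]
      constructor <;> nlinarith
    · rw [if_neg hnm, mul_zero, add_zero]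
      have b0 : |C n m| ≤ δ := by
        rw [hC]
        simp only
        rw [abs_div, abs_of_pos hX0, div_le_iff₀ hX0]
        exact h2 n hn m hm hnm
      have b1 := abs_le.1 (SGN_near (fun j => ε j * S n + ε j * S m + C n m) (3 * δ)
        (fun j => by
          have d1 := hS2 n hn j
          have d2 := hS2 m hm j
          have d3 := abs_add_three (ε j * S n) (ε j * S m) (C n m)
          linarith) (by linarith))
      rw [abs_le]
      constructor <;> linarith
  have hre : ∀ t, ‖∑ n ∈ P, w n * (((x n t - 1 : ℝ)) : ℂ)‖ ^ 2 =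
      (∑ n ∈ P, ∑ m ∈ P, w n * (starRingEnd ℂ) (w m) * (((x n t - 1) * (x m t - 1) : ℝ) : ℂ)).re := by
    intro t
    have h3 : ((‖∑ n ∈ P, w n * (((x n t - 1 : ℝ)) : ℂ)‖ ^ 2 : ℝ) : ℂ) =
        ∑ n ∈ P, ∑ m ∈ P, w n * (starRingEnd ℂ) (w m) * (((x n t - 1) * (x m t - 1) : ℝ) : ℂ) := by
      rw [Complex.ofReal_pow, ← Complex.mul_conj', map_sum, sum_mul_sum]
      refine sum_congr rfl fun n _ => sum_congr rfl fun m _ => ?_
      rw [map_mul, Complex.conj_ofReal, Complex.ofReal_mul]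
      ring
    rw [← h3, Complex.ofReal_re]
  have h4 : ∑ t ∈ T, ‖∑ n ∈ P, w n * (((x n t - 1 : ℝ)) : ℂ)‖ ^ 2 =
      (∑ n ∈ P, ∑ m ∈ P, w n * (starRingEnd ℂ) (w m) * ((∑ t ∈ T, (x n t - 1) * (x m t - 1) : ℝ) : ℂ)).re := by
    rw [sum_congr rfl fun t _ => hre t, ← Complex.re_sum]
    congr 1
    rw [sum_comm]
    refine sum_congr rfl fun n _ => ?_
    rw [sum_comm]
    refine sum_congr rfl fun m _ => ?_
    rw [Complex.ofReal_sum, mul_sum]
  rw [sum_congr rfl fun t _ => by rw [hcount t], ← hT, h4]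
  refine (Complex.re_le_norm _).trans ?_
  calc ‖∑ n ∈ P, ∑ m ∈ P, w n * (starRingEnd ℂ) (w m) * ((∑ t ∈ T, (x n t - 1) * (x m t - 1) : ℝ) : ℂ)‖
      ≤ ∑ n ∈ P, ∑ m ∈ P, ‖w n * (starRingEnd ℂ) (w m) * ((∑ t ∈ T, (x n t - 1) * (x m t - 1) : ℝ) : ℂ)‖ :=
        (norm_sum_le _ _).trans (sum_le_sum fun n _ => norm_sum_le _ _)
    _ ≤ ∑ n ∈ P, ∑ m ∈ P, (X : ℝ) ^ L *
          (10 * L * δ + 2 ^ (L + 2) * (if (n, m) ∈ E then (1 : ℝ) else 0)) := by
        refine sum_le_sum fun n hn => sum_le_sum fun m hm => ?_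
        rw [norm_mul, norm_mul, RCLike.norm_conj, Complex.norm_real, Real.norm_eq_abs]
        have h5 : ‖w n‖ * ‖w m‖ ≤ 1 := mul_le_one₀ (hw _) (norm_nonneg _) (hw _)
        calc _ ≤ 1 * |∑ t ∈ T, (x n t - 1) * (x m t - 1)| := by gcongr
          _ ≤ _ := by rw [one_mul]; exact hterm n hn m hm
    _ = (X : ℝ) ^ L * (10 * L * δ * (P.card : ℝ) ^ 2 +
          2 ^ (L + 2) * (((P ×ˢ P).filter fun q => q ∈ E).card : ℝ)) := by
        have e1 : (((P ×ˢ P).filter fun q => q ∈ E).card : ℝ) =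
            ∑ n ∈ P, ∑ m ∈ P, (if (n, m) ∈ E then (1 : ℝ) else 0) := by
          rw [card_filter, Nat.cast_sum, sum_product]
          refine sum_congr rfl fun n _ => sum_congr rfl fun m _ => ?_
          rw [Nat.cast_ite, Nat.cast_one, Nat.cast_zero]
        rw [e1]
        simp only [← mul_sum]
        congr 1
        simp only [sum_add_distrib, ← mul_sum, sum_const, nsmul_eq_mul]
        ring

end Pool.Agent.Q145.HC
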