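import Pool.Agent.Q145.HC.LawD
import Pool.Agent.Q145.SZ.SufF

/-!
# Project HC: from zero-free regions to the law
-/

set_option autoImplicit false

namespace Pool.Agent.Q145.HC

open Finset Filter
open Pool.Agent.Q145.SZ

lemma zf_mono {F F' : ℕ} {ω T : ℝ} (hF : F ≤ F') (h : ZF F' ω T) : ZF F ω T :=
  fun f _ h1 h2 χ hχ s hs ht => h f h1 (h2.trans hF) χ hχ s hs ht

lemma anL (ms : S_MSL') (lc : ∀ A : ℕ, ∃ (b A' C₁ X₀ : ℕ), ∀ z X : ℕ, X₀ ≤ X →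
    C₁ * Real.log (Real.log X) ≤ z → C₁ * (z : ℝ) ≤ Real.log X → ML A' X (2 * PW z ^ b) → LCc A z X) (pb : S_PWB) (A : ℕ) :
    ∃ (B : ℕ) (C₀ : ℝ), 1 ≤ B ∧ 64 ≤ C₀ ∧
    ∀ (z X : ℕ) (ω T : ℝ), C₀ ≤ Real.log (Real.log X) → C₀ * Real.log (Real.log X) ≤ z → C₀ * z * Real.log (Real.log X) ≤ Real.log X →
      0 < ω → ω ≤ 1 / 4 → C₀ * Real.log (Real.log X) ≤ ω * Real.log X → 0 < T → 120 * B * z ≤ Real.log T → 6 * √(Real.log X) ≤ Real.log T →
      ZF (PW z ^ B) ω T → LCc A z X := by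
  obtain ⟨b, A', C₁, X₁, hh2⟩ := lc A
  obtain ⟨Cm, Xm, hCm, hms⟩ := ms A'
  obtain ⟨z₁, hz₁⟩ := pb.2
  refine ⟨b + 1, 64 + C₁ + 2 * (b + 1) * Cm + X₁ + Xm + z₁, by omega, ?_, ?_⟩
  · have : 0 < 2 * ((b : ℝ) + 1) * Cm := by positivity
    have h2 : (0 : ℝ) ≤ C₁ := by positivity
    have h3 : (0 : ℝ) ≤ X₁ := by positivity
    have h4 : (0 : ℝ) ≤ Xm := by positivity
    have h5 : (0 : ℝ) ≤ z₁ := by positivity
    linarith
  intro z X ω T hl hz hzL hω hω4 hωL hT hTz hTL hZF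
  set C₀ : ℝ := 64 + C₁ + 2 * (b + 1) * Cm + X₁ + Xm + z₁ with hC₀
  have q1 : 0 < 2 * ((b : ℝ) + 1) * Cm := by positivity
  have q2 : (0 : ℝ) ≤ C₁ := by positivity
  have q3 : (0 : ℝ) ≤ X₁ := by positivity
  have q4 : (0 : ℝ) ≤ Xm := by positivity
  have q6 : (0 : ℝ) ≤ z₁ := by positivity
  have q5 : Cm ≤ 2 * ((b : ℝ) + 1) * Cm := by
    have : (0 : ℝ) ≤ b := by positivity
    nlinarith
  have hC64 : 64 ≤ C₀ := by linarith
  obtain ⟨hL0, hLM, hzM, hzL', hzl, hXe, hLe, hl1, hlL⟩ := elem (C := C₀) (M := C₀) hC64 (by linarith) hl hz hzL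
  obtain ⟨c1, c2, hX3⟩ := ll_conseq (M := C₀) (by linarith) hl
  set L := Real.log X with hL
  set l := Real.log L with hl'
  have hl0 : 0 < l := by linarith
  have hz0 : (0 : ℝ) < z := by linarith
  have hX1 : X₁ ≤ X := by
    have : (X₁ : ℝ) ≤ X := by linarith
    exact_mod_cast this
  have hXm : Xm ≤ X := by
    have : (Xm : ℝ) ≤ X := by linarith
    exact_mod_cast this
  have hz1 : z₁ ≤ z := by
    have : (z₁ : ℝ) ≤ z := by linarith
    exact_mod_cast this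
  have hWe : (PW z : ℝ) ≤ Real.exp (2 * z) := PW_le pb z
  have hW1 := one_le_PW z
  have hW2 : (2 : ℝ) ≤ PW z := by
    refine le_trans ?_ (hz₁ z hz1)
    have := Real.add_one_le_exp ((z : ℝ) / 2)
    linarith
  have hW2n : 2 ≤ PW z := by exact_mod_cast hW2
  have hF1 : 1 ≤ 2 * PW z ^ b := by
    have := Nat.one_le_pow b _ (PW_pos z)
    omega
  have hFle : 2 * PW z ^ b ≤ PW z ^ (b + 1) := by
    rw [pow_succ, mul_comm]
    exact Nat.mul_le_mul_left _ hW2n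
  have hFr : ((2 * PW z ^ b : ℕ) : ℝ) ≤ ((PW z ^ (b + 1) : ℕ) : ℝ) := by exact_mod_cast hFle
  have hF0 : (0 : ℝ) < ((2 * PW z ^ b : ℕ) : ℝ) := by exact_mod_cast hF1
  have hlogF : Real.log ((2 * PW z ^ b : ℕ) : ℝ) ≤ (b + 1) * (2 * z) := by
    refine (Real.log_le_log hF0 hFr).trans ?_
    push_cast
    rw [Real.log_pow]
    push_cast
    have : Real.log (PW z) ≤ 2 * z := by
      rw [Real.log_le_iff_le_exp (by linarith)]; exact hWe
    gcongr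
  have hzlpos : 0 < (z : ℝ) * l := by positivity
  have hM : ML A' X (2 * PW z ^ b) := by
    refine hms X (2 * PW z ^ b) ω T hXm hF1 ?_ hω hω4 ?_ ?_ ?_ (zf_mono hFle hZF)
    · calc Cm * Real.log ((2 * PW z ^ b : ℕ) : ℝ) * l ≤ Cm * ((b + 1) * (2 * z)) * l := by gcongr
        _ = (2 * (b + 1) * Cm) * (z * l) := by ring
        _ ≤ C₀ * (z * l) := by gcongr; linarith
        _ = C₀ * z * l := by ring
        _ ≤ L := hzL
    · calc Cm * l ≤ C₀ * l := by gcongr; linarith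
        _ ≤ ω * L := hωL
    · calc ((2 * PW z ^ b : ℕ) : ℝ) ^ 60 ≤ ((PW z ^ (b + 1) : ℕ) : ℝ) ^ 60 := by gcongr
        _ = (PW z : ℝ) ^ ((b + 1) * 60) := by push_cast; rw [← pow_mul]
        _ ≤ (Real.exp (2 * z)) ^ ((b + 1) * 60) := by gcongr
        _ = Real.exp (120 * ((b + 1 : ℕ) : ℝ) * z) := by rw [← Real.exp_nat_mul]; push_cast; ring_nf
        _ ≤ Real.exp (Real.log T) := Real.exp_le_exp.2 hTz
        _ = T := Real.exp_log hT
    · calc Real.exp (6 * √L) ≤ Real.exp (Real.log T) := Real.exp_le_exp.2 hTL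
        _ = T := Real.exp_log hT
  refine hh2 z X hX1 ?_ ?_ hM
  · calc (C₁ : ℝ) * l ≤ C₀ * l := by gcongr; linarith
      _ ≤ z := hz
  · calc (C₁ : ℝ) * z ≤ C₀ * z := by gcongr; linarith
      _ = C₀ * z * 1 := by ring
      _ ≤ C₀ * z * l := by gcongr
      _ ≤ L := hzL

/-- **Sufficiency**: a zero-free region gives the law of the signs along long tuples -/
def S_SUFH : Prop := ∃ (B : ℕ) (C₀ : ℝ), 1 ≤ B ∧ 64 ≤ C₀ ∧ ∀ ε : ℝ, 0 < ε → ∃ M : ℝ, C₀ ≤ M ∧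
    ∀ (z X : ℕ) (ω T : ℝ), M ≤ Real.log (Real.log X) → C₀ * Real.log (Real.log X) ≤ z → C₀ * z * Real.log (Real.log X) ≤ Real.log X →
      0 < ω → ω ≤ 1 / 4 → C₀ * Real.log (Real.log X) ≤ ω * Real.log X → 0 < T → 120 * B * z ≤ Real.log T → 6 * √(Real.log X) ≤ Real.log T →
      ZF (PW z ^ B) ω T → ∀ K L : ℕ, 16 * (K + L) ≤ z → HCK X K L ε

lemma sufh (h1 : S_LAW1) (h2 : S_LAW2') (m1 : S_MOM1) (m2 : S_MOM2) (hs : S_HS') (sv : S_SIEVE) (pb : S_PWB) (pc : S_PWC) (us : S_US)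
    (mbs : S_MBS) (tr : S_TRANS) (tail : S_TAIL') (ms : S_MS') (hh1 : S_H1) (hh2 : S_H2')
    (msl : S_MSL') (lc : ∀ A : ℕ, ∃ (b A' C₁ X₀ : ℕ), ∀ z X : ℕ, X₀ ≤ X →
    C₁ * Real.log (Real.log X) ≤ z → C₁ * (z : ℝ) ≤ Real.log X → ML A' X (2 * PW z ^ b) → LCc A z X) (mome : S_MOME) (pnl : S_PNL) : S_SUFH := by
  obtain ⟨a, hvb⟩ := var_bound h1 h2 m1 m2 hs sv pb pc us
  obtain ⟨a', hpb⟩ := pair_bound mome hs sv pb us
  obtain ⟨B, C₀, hB, hC₀, han⟩ := an ms hh1 hh2 pb (2 * a)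
  obtain ⟨B', C₀', hB', hC₀', han'⟩ := anL msl lc pb (2 * a' + 2)
  refine ⟨B + B', C₀ + C₀', by omega, by linarith, fun ε hε => ?_⟩
  obtain ⟨M, hM, hh⟩ := hc_bound hvb hpb mbs tr tail pb pnl ε hε
  refine ⟨M + (C₀ + C₀'), by linarith, ?_⟩
  intro z X ω T hl hz hzL hω hω4 hωL hT hTz hTL hZF K L hK
  have hl0 : 0 < Real.log (Real.log X) := by linarith
  have hz0 : (0 : ℝ) ≤ z := by positivity
  have hzl0 : 0 ≤ (z : ℝ) * Real.log (Real.log X) := by positivity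
  have w1 : C₀ * Real.log (Real.log X) ≤ (C₀ + C₀') * Real.log (Real.log X) := by gcongr; linarith
  have w2 : C₀' * Real.log (Real.log X) ≤ (C₀ + C₀') * Real.log (Real.log X) := by gcongr; linarith
  have w3 : C₀ * z * Real.log (Real.log X) ≤ (C₀ + C₀') * z * Real.log (Real.log X) := by gcongr; linarith
  have w4 : C₀' * z * Real.log (Real.log X) ≤ (C₀ + C₀') * z * Real.log (Real.log X) := by gcongr; linarith
  have hBz : 120 * (B : ℝ) * z ≤ 120 * ((B + B' : ℕ) : ℝ) * z := by gcongr; exact_mod_cast Nat.le_add_right _ _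
  have hBz' : 120 * (B' : ℝ) * z ≤ 120 * ((B + B' : ℕ) : ℝ) * z := by gcongr; exact_mod_cast Nat.le_add_left _ _
  obtain ⟨a1, a2⟩ := han z X ω T (by linarith) (w1.trans hz) (w3.trans hzL) hω hω4 (w1.trans hωL) hT (hBz.trans hTz) hTL
    (zf_mono (Nat.pow_le_pow_right (PW_pos z) (Nat.le_add_right _ _)) hZF)
  have a3 := han' z X ω T (by linarith) (w2.trans hz) (w4.trans hzL) hω hω4 (w2.trans hωL) hT (hBz'.trans hTz) hTL
    (zf_mono (Nat.pow_le_pow_right (PW_pos z) (Nat.le_add_left _ _)) hZF)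
  refine hh z X K L (by linarith) ?_ ?_ hK a1 a2 a3
  · refine le_trans ?_ hz
    gcongr; linarith
  · refine le_trans ?_ hzL
    gcongr; linarith

end Pool.Agent.Q145.HC
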