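import Pool.Agent.Q145.HC.Cases
import Pool.Agent.Q145.SZ.All
import Pool.Agent.Q68.HC.LID
import Pool.Agent.Q237.HC.Bcl
import Pool.Agent.Q208.HC.LUP
import Pool.Agent.Q208.HC.GEX
import Pool.Agent.Q96.HC.Plb
import Pool.Agent.Q223.HC.DSP
import Pool.Agent.Q96.HC.Mbl
import Pool.Agent.Q96.HC.Ktl
import Pool.Agent.Q248.HC.SHL
import Pool.Agent.Q237.HC.Gsl
import Pool.Agent.Q151.HC.Majl
import Pool.Agent.Q248.HC.MINL
import Pool.Agent.Q151.HC.Lcor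
import Pool.Agent.Q130.HC.PNL
import Pool.Agent.Q151.HC.Mome

/-!
# Project HC: assembly of all parts
-/

set_option autoImplicit false

namespace Pool.Agent.Q145.HC

open Finset Filter
open Pool.Agent.Q145.SZ
open Pool.Agent.Q111.SZ Pool.Agent.Q58.SZ Pool.Agent.Q177.SZ

theorem gex' : S_GEX' := Pool.Agent.Q208.HC.t_GEX Pool.Agent.Q68.HC.t_LID t_BCL Pool.Agent.Q208.HC.t_LUP

theorem mbl' : S_MBL' := t_MBL gex' t_PLB

theorem sufh_of (hyb : S_HYBL') (msl : S_MSL) : S_SUFHs :=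
  sufhs (sufh t_LAW1 law2' t_MOM1 t_MOM2 hs' t_SIEVE t_PWB t_PWC t_US t_MBS t_TRANS tail' ms' t_H1
    (t_H2 t_ENG t_MAJ t_GS t_MODB t_MIN t_MODA t_MODC t_MODE t_US t_PWB) (msl hyb t_SHL) (t_LCOR t_ENG t_MAJL t_GSL t_MINL t_PWB) t_MOME t_PNL)

end Pool.Agent.Q145.HC
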