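import Pool.Agent.Q145.HC.LawE
import Pool.Agent.Q145.SZ.Dich

/-!
# Project HC: the three ranges (the arguments of project SZ with the new conclusion)
-/

set_option autoImplicit false

namespace Pool.Agent.Q145.HC

open Finset Filter Complex
open Pool.Agent.W66 Pool.Agent.W66L
open Pool.Agent.Q145.SZ

/-- the law for all lengths with sum at most `N` -/
def HCKs (X N : ℕ) (ε : ℝ) : Prop := ∀ K L : ℕ, K + L ≤ N → HCK X K L ε

/-- `S_SUFH` with one parameter for the lengths -/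
def S_SUFHs : Prop := ∃ (B : ℕ) (C₀ : ℝ), 1 ≤ B ∧ 64 ≤ C₀ ∧ ∀ ε : ℝ, 0 < ε → ∃ M : ℝ, C₀ ≤ M ∧
    ∀ (z X : ℕ) (ω T : ℝ), M ≤ Real.log (Real.log X) → C₀ * Real.log (Real.log X) ≤ z → C₀ * z * Real.log (Real.log X) ≤ Real.log X →
      0 < ω → ω ≤ 1 / 4 → C₀ * Real.log (Real.log X) ≤ ω * Real.log X → 0 < T → 120 * B * z ≤ Real.log T → 6 * √(Real.log X) ≤ Real.log T →
      ZF (PW z ^ B) ω T → ∀ K : ℕ, 16 * K ≤ z → HCKs X K ε

lemma sufhs (h : S_SUFH) : S_SUFHs := by
  obtain ⟨B, C₀, hB, hC₀, hh⟩ := h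
  refine ⟨B, C₀, hB, hC₀, fun ε hε => ?_⟩
  obtain ⟨M, hM, h2⟩ := hh ε hε
  refine ⟨M, hM, fun z X ω T a1 a2 a3 a4 a5 a6 a7 a8 a9 a10 N hN K L hKL => ?_⟩
  exact h2 z X ω T a1 a2 a3 a4 a5 a6 a7 a8 a9 a10 K L (by omega)

/-- the inner part of `S_SUFHs` for fixed `B`, `C₀` -/
def SUFcH (B : ℕ) (C₀ : ℝ) : Prop := ∀ ε : ℝ, 0 < ε → ∃ M : ℝ, C₀ ≤ M ∧
    ∀ (z X : ℕ) (ω T : ℝ), M ≤ Real.log (Real.log X) → C₀ * Real.log (Real.log X) ≤ z → C₀ * z * Real.log (Real.log X) ≤ Real.log X →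
      0 < ω → ω ≤ 1 / 4 → C₀ * Real.log (Real.log X) ≤ ω * Real.log X → 0 < T → 120 * B * z ≤ Real.log T → 6 * √(Real.log X) ≤ Real.log T →
      ZF (PW z ^ B) ω T → ∀ K : ℕ, 16 * K ≤ z → HCKs X K ε


lemma uniH (zr : S_ZR') (pb : S_PWB) {B : ℕ} {C₀ : ℝ} (hB : 1 ≤ B) (hC₀ : 64 ≤ C₀) (hsuf : SUFcH B C₀)
    (z : ℕ → ℕ) (θ : ℝ) (hθ : 1 / 2 ≤ θ) (hθ1 : θ < 1)
    (hz1 : ∀ᶠ X : ℕ in atTop, C₀ * Real.log (Real.log X) ≤ z X) (hz2 : ∀ᶠ X : ℕ in atTop, (z X : ℝ) ≤ Real.log X ^ θ)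
    (hreal : ∀ᶠ X : ℕ in atTop, ∀ (f : ℕ) [NeZero f], 1 < f → f ≤ PW (z X) ^ B → ∀ χ : DirichletCharacter ℂ f, χ.IsPrimitive → χ ^ 2 = 1 →
      ∀ β : ℝ, χ.LFunction β = 0 → β ≤ 1 - Real.log X ^ (-θ)) (ε : ℝ) (hε : 0 < ε) :
    ∀ᶠ X : ℕ in atTop, ∀ K : ℕ, 16 * K ≤ z X → HCKs X K ε := by
  obtain ⟨c, hc, hzf⟩ := zf_of zr
  obtain ⟨M, hM, hh⟩ := hsuf ε hε
  have hBr : (1 : ℝ) ≤ B := by exact_mod_cast hB
  set c' : ℝ := min (1 / 4) (c / (130 * B)) with hc'
  have hc'0 : 0 < c' := by positivity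
  have hc'4 : c' ≤ 1 / 4 := min_le_left _ _
  have hc'c : c' ≤ c / (130 * B) := min_le_right _ _
  have hθ' : 0 < 1 - θ := by linarith
  filter_upwards [hz1, hz2, hreal, ll_tendsto.eventually_ge_atTop M, ev_ll_rpow (C₀ / c') hθ'] with X h1 h2 h3 h4 h5
  have hl64 : 64 ≤ Real.log (Real.log X) := by linarith
  obtain ⟨hL1, -, -⟩ := ll_conseq (M := 64) (by norm_num) hl64
  set L := Real.log X with hL
  set l := Real.log L with hl
  have hL0 : 0 < L := by linarith
  have hL1' : 1 ≤ L := by linarith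
  have hLθ : 1 ≤ L ^ θ := Real.one_le_rpow hL1' (by linarith)
  have hLmul : L ^ θ * L ^ (1 - θ) = L := by rw [← Real.rpow_add hL0]; simp
  have hLneg : L ^ (-θ) * L = L ^ (1 - θ) := by
    nth_rewrite 2 [← Real.rpow_one L]
    rw [← Real.rpow_add hL0]; ring_nf
  have hLinv : L ^ (-θ) * L ^ θ = 1 := by rw [← Real.rpow_add hL0]; simp
  have hneg0 : 0 < L ^ (-θ) := Real.rpow_pos_of_pos hL0 _
  have hneg1 : L ^ (-θ) ≤ 1 := by
    by_contra hcon
    push Not at hcon
    nlinarith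
  have hl0 : 0 < l := by linarith
  have h5' : C₀ * l ≤ c' * L ^ (1 - θ) := by
    have := mul_le_mul_of_nonneg_left h5 hc'0.le
    have e : c' * (C₀ / c' * l) = C₀ * l := by field_simp
    rw [e] at this
    exact this
  have h6 : C₀ * l ≤ L ^ (1 - θ) := by
    refine h5'.trans ?_
    have : 0 < L ^ (1 - θ) := Real.rpow_pos_of_pos hL0 _
    nlinarith
  intro K hK
  set T : ℝ := Real.exp (120 * B * z X + 6 * √L) with hT
  have hlogT : Real.log T = 120 * B * z X + 6 * √L := by rw [hT, Real.log_exp]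
  have hsq : √L ≤ L ^ θ := by
    rw [Real.sqrt_eq_rpow]
    exact Real.rpow_le_rpow_of_exponent_le hL1' hθ
  have hlogT3 : Real.log (T + 3) ≤ (120 * B + 8) * L ^ θ := by
    have hT1 : 1 ≤ T := by
      rw [hT]; exact Real.one_le_exp (by positivity)
    have h7 : Real.log (T + 3) ≤ Real.log (T * 4) := Real.log_le_log (by linarith) (by linarith)
    rw [Real.log_mul (by linarith) (by norm_num), hlogT] at h7
    have h8 : Real.log 4 ≤ 2 := by
      rw [Real.log_le_iff_le_exp (by norm_num)]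
      have := Real.add_one_le_exp (1 : ℝ)
      have e : Real.exp 2 = Real.exp 1 * Real.exp 1 := by rw [← Real.exp_add]; norm_num
      rw [e]; nlinarith
    have h9 : 120 * (B : ℝ) * z X ≤ 120 * B * L ^ θ := by gcongr
    nlinarith
  refine hh (z X) X (c' * L ^ (-θ)) T h4 h1 ?_ (by positivity) ?_ ?_ (Real.exp_pos _) ?_ ?_ ?_ K hK
  · calc C₀ * z X * l ≤ C₀ * L ^ θ * l := by gcongr
      _ = L ^ θ * (C₀ * l) := by ring
      _ ≤ L ^ θ * L ^ (1 - θ) := by gcongr
      _ = L := hLmul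
  · nlinarith
  · calc C₀ * l ≤ c' * L ^ (1 - θ) := h5'
      _ = c' * L ^ (-θ) * L := by rw [mul_assoc, hLneg]
  · rw [hlogT]; linarith [Real.sqrt_nonneg L]
  · rw [hlogT]
    have : 0 ≤ 120 * (B : ℝ) * z X := by positivity
    linarith
  · refine hzf _ T (L ^ (-θ)) (c' * L ^ (-θ)) (by positivity) ?_ ?_ h3
    · nlinarith
    · have h7 := log_PW_pow_le pb (z X) B
      have h8 : 2 * (B : ℝ) * z X ≤ 2 * B * L ^ θ := by gcongr
      have h9 : Real.log ((PW (z X) ^ B : ℕ) : ℝ) + Real.log (T + 3) ≤ 130 * B * L ^ θ := by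
        nlinarith
      calc c' * L ^ (-θ) * (Real.log ((PW (z X) ^ B : ℕ) : ℝ) + Real.log (T + 3)) ≤ c' * L ^ (-θ) * (130 * B * L ^ θ) := by gcongr
        _ = c' * (130 * B) * (L ^ (-θ) * L ^ θ) := by ring
        _ = c' * (130 * B) := by rw [hLinv, mul_one]
        _ ≤ c := by rw [le_div_iff₀ (by positivity)] at hc'c; exact hc'c


theorem case1H (zr : S_ZR') (pb : S_PWB) (sg : S_SIEG) (hs : S_SUFHs) (A ε : ℝ) (hε : 0 < ε) :
    ∀ᶠ X : ℕ in atTop, ∀ K : ℕ, (K : ℝ) ≤ A * Real.log (Real.log X) → HCKs X K ε := by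
  obtain ⟨B, C₀, hB, hC₀, hsuf⟩ := hs
  set D₁ : ℝ := 16 * |A| + C₀ with hD₁
  have hD₁0 : 0 < D₁ := by have := abs_nonneg A; linarith
  set z : ℕ → ℕ := fun X => ⌈D₁ * Real.log (Real.log X)⌉₊ with hz
  have hBr : (1 : ℝ) ≤ B := by exact_mod_cast hB
  have hzub : ∀ᶠ X : ℕ in atTop, (z X : ℝ) ≤ D₁ * Real.log (Real.log X) + 1 := by
    filter_upwards [ll_tendsto.eventually_ge_atTop 0] with X h
    exact ceil_le_add_one (by positivity)
  have h1 : ∀ᶠ X : ℕ in atTop, C₀ * Real.log (Real.log X) ≤ z X := by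
    filter_upwards [ll_tendsto.eventually_ge_atTop 0] with X h
    refine le_trans ?_ (Nat.le_ceil _)
    have : C₀ ≤ D₁ := by have := abs_nonneg A; linarith
    gcongr
  have h2 : ∀ᶠ X : ℕ in atTop, (z X : ℝ) ≤ Real.log X ^ (1 / 2 : ℝ) := by
    filter_upwards [hzub, ll_tendsto.eventually_ge_atTop 1, ev_ll_rpow (D₁ + 1) (a := 1 / 2) (by norm_num)] with X ha hb hc
    nlinarith
  have h3 := sieg_real sg pb B z (2 * B * D₁ + 2 * B) (by positivity) (by
    filter_upwards [hzub, ll_tendsto.eventually_ge_atTop 0] with X ha hb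
    have : 2 * (B : ℝ) * z X ≤ 2 * B * (D₁ * Real.log (Real.log X) + 1) := by gcongr
    have h5 : 0 ≤ 2 * (B : ℝ) * Real.log (Real.log X) := by positivity
    have h6 : 0 ≤ 2 * (B : ℝ) * D₁ := by positivity
    nlinarith)
  have h4 := uniH zr pb hB hC₀ hsuf z (1 / 2) le_rfl (by norm_num) h1 h2 h3 ε hε
  filter_upwards [h4, ll_tendsto.eventually_ge_atTop 0] with X ha hb K hK
  apply ha
  have : (16 * K : ℝ) ≤ z X := by
    refine le_trans ?_ (Nat.le_ceil _)
    have : A * Real.log (Real.log X) ≤ |A| * Real.log (Real.log X) := by gcongr; exact le_abs_self A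
    have h5 : 0 ≤ C₀ * Real.log (Real.log X) := by positivity
    nlinarith
  exact_mod_cast this


lemma case2aH (pb : S_PWB) {B : ℕ} {C₀ : ℝ} (hB : 1 ≤ B) (hC₀ : 64 ≤ C₀) (hsuf : SUFcH B C₀) {c : ℝ} (hc : 0 < c) (ε : ℝ) (hε : 0 < ε) :
    ∀ᶠ Q : ℕ in atTop, GoodQ c Q → ∀ X : ℕ, Real.log Q ≤ Real.log X → (62 * C₀ / c + C₀) * Real.log Q * Real.log (Real.log X) ≤ Real.log X →
      Real.log X ≤ Real.log Q ^ 2 → ∀ K : ℕ, (K : ℝ) ≤ 1 / (64 * B) * Real.log Q → HCKs X K ε := by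
  obtain ⟨M, hM, hh⟩ := hsuf ε hε
  have hBr : (1 : ℝ) ≤ B := by exact_mod_cast hB
  have e1 := log_tendsto.eventually (ev_log_rpow (2 * C₀ * (4 * B)) (a := 1) one_pos)
  filter_upwards [ll_tendsto.eventually_ge_atTop M, log_tendsto.eventually_ge_atTop (4 * B), log_tendsto.eventually_ge_atTop (4 * c), e1]
    with Q h1 h2 h3 h4 hG X hX1 hX2 hX3 K hK
  obtain ⟨hlm1, -, -⟩ := ll_conseq (M := 64) (by norm_num) (by linarith : 64 ≤ Real.log (Real.log Q))
  set lam := Real.log Q with hlam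
  rw [Real.rpow_one] at h4
  have hlam0 : 0 < lam := by linarith
  have hL0 : 0 < Real.log X := by linarith
  have hll : Real.log lam ≤ Real.log (Real.log X) := Real.log_le_log hlam0 hX1
  have hll0 : 0 < Real.log (Real.log X) := by linarith
  have hll2 : Real.log (Real.log X) ≤ 2 * Real.log lam := by
    have := Real.log_le_log hL0 hX3
    rwa [Real.log_pow] at this
  have hQ0 : (0 : ℝ) < Q := by
    rcases Nat.eq_zero_or_pos Q with h | h
    · rw [hlam, h] at hlam0; simp at hlam0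
    · exact_mod_cast h
  set z : ℕ := ⌊lam / (2 * B)⌋₊ with hz
  have hz1 : (z : ℝ) ≤ lam / (2 * B) := Nat.floor_le (by positivity)
  have hz2 : lam / (2 * B) - 1 ≤ z := (Nat.sub_one_lt_floor _).le
  have hz3 : lam / (4 * B) ≤ z := by
    refine le_trans ?_ hz2
    have : lam / (2 * B) = lam / (4 * B) + lam / (4 * B) := by field_simp; norm_num
    rw [this]
    have : 1 ≤ lam / (4 * B) := by rw [le_div_iff₀ (by positivity)]; linarith
    linarith
  have hz4 : 2 * B * z ≤ lam := by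
    rw [le_div_iff₀ (by positivity)] at hz1; linarith
  have hMc : 0 < 62 * C₀ / c := by positivity
  have hT : Real.log (Real.exp (60 * lam)) = 60 * lam := Real.log_exp _
  refine hh z X (c / (62 * lam)) (Real.exp (60 * lam)) (by linarith) ?_ ?_ (by positivity) ?_ ?_ (Real.exp_pos _) ?_ ?_ ?_ K ?_
  · have : C₀ * Real.log (Real.log X) ≤ C₀ * (2 * Real.log lam) := by gcongr
    refine this.trans (le_trans ?_ hz3)
    rw [le_div_iff₀ (by positivity)]
    linarith
  · have h5 : C₀ * z * Real.log (Real.log X) ≤ C₀ * lam * Real.log (Real.log X) := by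
      gcongr
      have : (z : ℝ) ≤ 2 * B * z := by
        have : (0 : ℝ) ≤ z := by positivity
        nlinarith
      linarith
    refine h5.trans (le_trans ?_ hX2)
    gcongr
    linarith
  · rw [div_le_div_iff₀ (by positivity) (by norm_num)]
    linarith
  · have h5 : (62 * C₀ / c) * lam * Real.log (Real.log X) ≤ Real.log X := by
      refine le_trans ?_ hX2
      gcongr
      linarith
    rw [div_mul_eq_mul_div, le_div_iff₀ (by positivity)]
    have h6 := mul_le_mul_of_nonneg_left h5 hc.le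
    have e : c * (62 * C₀ / c * lam * Real.log (Real.log X)) = C₀ * Real.log (Real.log X) * (62 * lam) := by field_simp
    rw [e] at h6
    exact h6
  · rw [hT]; linarith
  · rw [hT]
    have : √(Real.log X) ≤ lam := by
      rw [Real.sqrt_le_left hlam0.le]; exact hX3
    linarith
  · intro f _ hf hfF χ hχ s hs him h0
    have hfQ : f ≤ Q := by
      have h5 : ((PW z ^ B : ℕ) : ℝ) ≤ Q := by
        rw [← Real.log_le_log_iff (by exact_mod_cast Nat.pow_pos (PW_pos z)) hQ0]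
        exact (log_PW_pow_le pb z B).trans hz4
      exact hfF.trans (by exact_mod_cast h5)
    have h5 := hG f hf hfQ χ hχ s h0
    have : NeZero Q := ⟨by rintro rfl; simp at hQ0⟩
    have h6 : lq Q s.im ≤ 62 * lam := by
      have h7 := lq_le (f := Q) (F := Q) le_rfl him
      have h8 : Real.log (Real.exp (60 * lam) + 3) ≤ 60 * lam + 2 := by
        have h9 : Real.exp (60 * lam) + 3 ≤ Real.exp (60 * lam) * 4 := by
          have : 1 ≤ Real.exp (60 * lam) := Real.one_le_exp (by positivity)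
          linarith
        have h10 := Real.log_le_log (by positivity) h9
        rw [Real.log_mul (by positivity) (by norm_num), hT] at h10
        have h11 : Real.log 4 ≤ 2 := by
          rw [Real.log_le_iff_le_exp (by norm_num)]
          have := Real.add_one_le_exp (1 : ℝ)
          have e : Real.exp 2 = Real.exp 1 * Real.exp 1 := by rw [← Real.exp_add]; norm_num
          rw [e]; nlinarith
        linarith
      linarith
    have h7 : c / (62 * lam) ≤ c / lq Q s.im := by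
      have := lq_pos (f := Q) (s := s.im)
      gcongr
    linarith
  · have h5 : (16 * K : ℝ) ≤ z := by
      refine le_trans ?_ hz3
      have : (16 * K : ℝ) ≤ 16 * (1 / (64 * B) * lam) := by gcongr
      refine this.trans (le_of_eq ?_)
      field_simp; norm_num
    exact_mod_cast h5

theorem case2H (pb : S_PWB) (hs : S_SUFHs) (good : ∃ c : ℝ, 0 < c ∧ ∀ Q₀ : ℕ, ∃ Q : ℕ, Q₀ ≤ Q ∧ GoodQ c Q) :
    ∃ c : ℝ, 0 < c ∧ ∀ ε : ℝ, 0 < ε → ∃ᶠ X : ℕ in atTop, ∀ K : ℕ, (K : ℝ) ≤ c * (Real.log X / Real.log (Real.log X)) → HCKs X K ε := by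
  obtain ⟨B, C₀, hB, hC₀, hsuf⟩ := hs
  obtain ⟨c, hc, hg⟩ := good
  have hBr : (1 : ℝ) ≤ B := by exact_mod_cast hB
  set M : ℝ := 62 * C₀ / c + C₀ with hM
  have hM0 : 0 < 62 * C₀ / c := by positivity
  have hM1 : 64 ≤ M := by linarith
  refine ⟨1 / (64 * B) / (3 * M), by positivity, ?_⟩
  intro ε hε
  have hev := case2aH pb hB hC₀ hsuf hc ε hε
  have e1 := log_tendsto.eventually (ev_log_rpow (3 * M) (a := 1) one_pos)
  rw [Filter.frequently_atTop]
  intro X₀
  obtain ⟨Q₀, hQ₀⟩ := eventually_atTop.1 (hev.and (e1.and ((ll_tendsto.eventually_ge_atTop 64).and (log_tendsto.eventually_ge_atTop (X₀ : ℝ)))))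
  obtain ⟨Q, hQ, hgQ⟩ := hg Q₀
  obtain ⟨h1, h2, h3, h4⟩ := hQ₀ Q hQ
  obtain ⟨hlm1, -, -⟩ := ll_conseq (M := 64) (by norm_num) h3
  rw [Real.rpow_one] at h2
  set lam := Real.log Q with hlam
  have hlam0 : 0 < lam := by linarith
  have hll0 : 0 < Real.log lam := by linarith
  set y : ℝ := 2 * M * lam * Real.log lam with hy
  have hy0 : 0 < y := by positivity
  have hylam : lam ≤ y := by
    rw [hy]
    have : 1 ≤ 2 * M * Real.log lam := by nlinarith
    nlinarith
  set X : ℕ := ⌈Real.exp y⌉₊ with hX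
  have hX1 : Real.exp y ≤ X := Nat.le_ceil _
  have hX2 : (X : ℝ) ≤ Real.exp y + 1 := (Nat.ceil_lt_add_one (Real.exp_pos y).le).le
  have hX0 : (0 : ℝ) < X := lt_of_lt_of_le (Real.exp_pos y) hX1
  have hL1 : y ≤ Real.log X := by rw [Real.le_log_iff_exp_le hX0]; exact hX1
  have hL2 : Real.log X ≤ y + 1 := by
    rw [Real.log_le_iff_le_exp hX0, Real.exp_add]
    have h5 : 1 ≤ Real.exp y := Real.one_le_exp hy0.le
    have h6 : 1 + 1 ≤ Real.exp 1 := Real.add_one_le_exp 1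
    nlinarith
  have hylam2 : y + 1 ≤ lam ^ 2 := by
    rw [hy]
    have h5 : 2 * M * lam * Real.log lam = (2 / 3) * lam * (3 * M * Real.log lam) := by ring
    rw [h5]
    have h6 : (2 / 3) * lam * (3 * M * Real.log lam) ≤ (2 / 3) * lam * lam := by gcongr
    nlinarith
  have hlamL : lam ≤ Real.log X := by linarith
  have hL0 : 0 < Real.log X := by linarith
  have hllX : Real.log (Real.log X) ≤ 2 * Real.log lam := by
    have := Real.log_le_log hL0 (hL2.trans hylam2)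
    rwa [Real.log_pow] at this
  have hllX1 : Real.log lam ≤ Real.log (Real.log X) := Real.log_le_log hlam0 hlamL
  refine ⟨X, ?_, ?_⟩
  · have h5 : (X₀ : ℝ) ≤ X := by
      have := Real.add_one_le_exp y
      linarith
    exact_mod_cast h5
  · intro K hK
    refine h1 hgQ X hlamL ?_ (hL2.trans hylam2) K (hK.trans ?_)
    · calc M * lam * Real.log (Real.log X) ≤ M * lam * (2 * Real.log lam) := by gcongr
        _ = y := by rw [hy]; ring
        _ ≤ Real.log X := hL1
    · have h5 : Real.log X / Real.log (Real.log X) ≤ 3 * M * lam := by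
        rw [div_le_iff₀ (by linarith)]
        calc Real.log X ≤ y + 1 := hL2
          _ ≤ 3 * M * lam * Real.log lam := by
            rw [hy]
            have : 1 ≤ M * lam * Real.log lam := by
              have h6 : 1 ≤ M * lam := by nlinarith
              nlinarith
            nlinarith
          _ ≤ _ := by gcongr
      calc 1 / (64 * B) / (3 * M) * (Real.log X / Real.log (Real.log X)) ≤ 1 / (64 * B) / (3 * M) * (3 * M * lam) := by gcongr
        _ = _ := by field_simp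


theorem dichH (zr : S_ZR') (pb : S_PWB) (hs : S_SUFHs) :
    ∃ c C : ℝ, 0 < c ∧ 0 < C ∧ ∀ ε : ℝ, 0 < ε → ∀ᶠ X : ℕ in atTop,
      (∀ (r : ℕ) [NeZero r], 1 < r → (r : ℝ) ≤ Real.exp (Real.log X / Real.log (Real.log X)) → ∀ χ : DirichletCharacter ℂ r, χ.IsPrimitive → χ ^ 2 = 1 →
        ∀ β : ℝ, χ.LFunction β = 0 → β ≤ 1 - C * (Real.log (Real.log X) / Real.log X)) →
      ∀ K : ℕ, (K : ℝ) ≤ c * (Real.log X / Real.log (Real.log X)) → HCKs X K ε := by
  obtain ⟨B, C₀, hB, hC₀, hsuf⟩ := hs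
  obtain ⟨c₁, hc₁, hzf⟩ := zf_of zr
  have hBr : (1 : ℝ) ≤ B := by exact_mod_cast hB
  set c₂ : ℝ := min (1 / (2 * B * C₀)) (c₁ / (140 * B * C₀)) with hc₂
  have hc₂0 : 0 < c₂ := by positivity
  have hc₂a : c₂ ≤ 1 / (2 * B * C₀) := min_le_left _ _
  have hc₂b : c₂ ≤ c₁ / (140 * B * C₀) := min_le_right _ _
  refine ⟨c₂ / 32, C₀, by positivity, by linarith, ?_⟩
  intro ε hε
  obtain ⟨M, hM, hh⟩ := hsuf ε hε
  have e1 := ev_ll_rpow (4 * C₀ / c₂) (a := 1 / 4) (by norm_num)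
  have e2 := ev_ll_rpow (8 / c₂) (a := 1 / 4) (by norm_num)
  filter_upwards [ll_tendsto.eventually_ge_atTop M, e1, e2, ll_tendsto.eventually_ge_atTop 64] with X h1 h2 h3 h4 hreal K hK
  obtain ⟨hL1, -, -⟩ := ll_conseq (M := 64) (by norm_num) h4
  set L := Real.log X with hL
  set l := Real.log L with hl
  have hL0 : 0 < L := by linarith
  have hl0 : 0 < l := by linarith
  have hlL : l ≤ L := by
    have := Real.log_le_sub_one_of_pos hL0
    linarith
  -- L^{1/4} powers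
  have hq : L ^ (1 / 4 : ℝ) * L ^ (1 / 4 : ℝ) = √L := by
    rw [Real.sqrt_eq_rpow, ← Real.rpow_add hL0]; norm_num
  have hsq : √L * √L = L := Real.mul_self_sqrt hL0.le
  have hq0 : 0 < L ^ (1 / 4 : ℝ) := Real.rpow_pos_of_pos hL0 _
  have hs0 : 0 < √L := Real.sqrt_pos.2 hL0
  have hq1 : 1 ≤ L ^ (1 / 4 : ℝ) := Real.one_le_rpow (by linarith) (by norm_num)
  set y : ℝ := c₂ * (L / l) with hy
  have hy0 : 0 < y := by positivity
  -- √L ≤ y / 8
  have hy8 : 8 * √L ≤ y := by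
    have h5 : 8 / c₂ * l ≤ √L := by
      refine h3.trans ?_
      rw [← hq]; nlinarith
    rw [hy, mul_div_assoc', le_div_iff₀ hl0]
    have h6 : c₂ * (8 / c₂ * l) ≤ c₂ * √L := by gcongr
    have e : c₂ * (8 / c₂ * l) = 8 * l := by field_simp
    rw [e] at h6
    nlinarith
  have hyl : 4 * C₀ * l ≤ y := by
    have h5 : 4 * C₀ / c₂ * l ≤ √L := by
      refine h2.trans ?_
      rw [← hq]; nlinarith
    have h6 : c₂ * (4 * C₀ / c₂ * l) ≤ c₂ * √L := by gcongr
    have e : c₂ * (4 * C₀ / c₂ * l) = 4 * C₀ * l := by field_simp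
    rw [e] at h6
    have h7 : c₂ * √L ≤ √L := by
      have : c₂ ≤ 1 := by
        refine hc₂a.trans ?_
        rw [div_le_one (by positivity)]
        nlinarith
      nlinarith
    linarith
  set z : ℕ := ⌊y⌋₊ with hz
  have hz1 : (z : ℝ) ≤ y := Nat.floor_le hy0.le
  have hz2 : y - 1 ≤ z := (Nat.sub_one_lt_floor _).le
  have hy1 : 512 ≤ y := by
    have : 8 ≤ √L := by
      rw [show (8 : ℝ) = √64 by rw [show (64 : ℝ) = 8 ^ 2 by norm_num]; simp]
      exact Real.sqrt_le_sqrt hL1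
    nlinarith
  have hz3 : y / 2 ≤ z := by linarith
  have hBz : 2 * (B : ℝ) * z ≤ L / l := by
    have h5 : 2 * (B : ℝ) * z ≤ 2 * B * (1 / (2 * B * C₀) * (L / l)) := by
      have : (z : ℝ) ≤ 1 / (2 * B * C₀) * (L / l) := hz1.trans (by rw [hy]; gcongr)
      gcongr
    have e : 2 * (B : ℝ) * (1 / (2 * B * C₀) * (L / l)) = (L / l) / C₀ := by field_simp
    rw [e] at h5
    refine h5.trans ?_
    have : 0 ≤ L / l := by positivity
    exact div_le_self this (by linarith)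
  set T : ℝ := Real.exp (120 * B * z + 6 * √L) with hT
  have hlogT : Real.log T = 120 * B * z + 6 * √L := by rw [hT, Real.log_exp]
  have hlogT3 : Real.log (T + 3) ≤ 120 * B * z + 6 * √L + 2 := by
    have hT1 : 1 ≤ T := by
      rw [hT]; exact Real.one_le_exp (by positivity)
    have h7 : Real.log (T + 3) ≤ Real.log (T * 4) := Real.log_le_log (by linarith) (by linarith)
    rw [Real.log_mul (by linarith) (by norm_num), hlogT] at h7
    have h8 : Real.log 4 ≤ 2 := by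
      rw [Real.log_le_iff_le_exp (by norm_num)]
      have := Real.add_one_le_exp (1 : ℝ)
      have e : Real.exp 2 = Real.exp 1 * Real.exp 1 := by rw [← Real.exp_add]; norm_num
      rw [e]; nlinarith
    linarith
  have hC₀0 : 0 < C₀ := by linarith
  refine hh z X (C₀ * (l / L)) T h1 ?_ ?_ (by positivity) ?_ ?_ (Real.exp_pos _) ?_ ?_ ?_ K ?_
  · nlinarith
  · -- C₀ z l ≤ L
    have h5 : (z : ℝ) * l ≤ c₂ * L := by
      calc (z : ℝ) * l ≤ y * l := by gcongr
        _ = c₂ * L := by rw [hy]; field_simp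
    have h6 : C₀ * c₂ ≤ 1 := by
      have : C₀ * c₂ ≤ C₀ * (1 / (2 * B * C₀)) := by gcongr
      refine this.trans ?_
      have e : C₀ * (1 / (2 * B * C₀)) = 1 / (2 * (B : ℝ)) := by field_simp
      rw [e, div_le_one (by positivity)]
      linarith
    calc C₀ * z * l = C₀ * (z * l) := by ring
      _ ≤ C₀ * (c₂ * L) := by gcongr
      _ = (C₀ * c₂) * L := by ring
      _ ≤ 1 * L := by gcongr
      _ = L := one_mul L
  · -- ω ≤ 1/4
    rw [mul_div_assoc', div_le_iff₀ hL0]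
    have h5 : 4 * C₀ * l ≤ L := by
      refine hyl.trans ?_
      rw [hy]
      have h6 : c₂ ≤ 1 := by
        refine hc₂a.trans ?_
        rw [div_le_one (by positivity)]
        nlinarith
      have h7 : L / l ≤ L := div_le_self hL0.le (by linarith)
      have h8 : 0 < L / l := by positivity
      nlinarith
    linarith
  · rw [mul_assoc, div_mul_cancel₀ _ hL0.ne']
  · rw [hlogT]; linarith [Real.sqrt_nonneg L]
  · rw [hlogT]
    have : 0 ≤ 120 * (B : ℝ) * z := by positivity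
    linarith
  · refine hzf _ T (C₀ * (l / L)) (C₀ * (l / L)) (by positivity) le_rfl ?_ ?_
    · have h7 := log_PW_pow_le pb z B
      have h9 : Real.log ((PW z ^ B : ℕ) : ℝ) + Real.log (T + 3) ≤ 140 * B * y := by
        have hzB : (B : ℝ) * z ≤ B * y := by gcongr
        have hyB : y ≤ B * y := by nlinarith
        nlinarith
      calc C₀ * (l / L) * (Real.log ((PW z ^ B : ℕ) : ℝ) + Real.log (T + 3)) ≤ C₀ * (l / L) * (140 * B * y) := by gcongr
        _ = 140 * B * C₀ * c₂ := by rw [hy]; field_simp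
        _ ≤ 140 * B * C₀ * (c₁ / (140 * B * C₀)) := by gcongr
        _ = c₁ := by field_simp
    · intro f _ hf hfF χ hχ hχ2 β hβ
      refine hreal f hf ?_ χ hχ hχ2 β hβ
      have hf0 : (0 : ℝ) < f := by positivity
      rw [← Real.log_le_iff_le_exp hf0]
      have h5 : Real.log f ≤ Real.log ((PW z ^ B : ℕ) : ℝ) := Real.log_le_log hf0 (by exact_mod_cast hfF)
      exact (h5.trans (log_PW_pow_le pb z B)).trans hBz
  · have h5 : (16 * K : ℝ) ≤ z := by
      refine le_trans ?_ hz3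
      have : (16 * K : ℝ) ≤ 16 * (c₂ / 32 * (L / l)) := by gcongr
      refine this.trans (le_of_eq ?_)
      rw [hy]; ring
    exact_mod_cast h5


end Pool.Agent.Q145.HC
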