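import Pool.Agent.Q145.HC.Sgnw

/-!
# Project HC: one tuple
-/

set_option autoImplicit false

namespace Pool.Agent.Q145.HC

open Finset Filter Complex
open Pool.Agent.Q145.SZ

/-- The number of the points of the tuple is as predicted, and the signs of `λ` along them are independent of each other and of any weight. -/
def GoodHC {K : ℕ} (X L : ℕ) (ε : ℝ) (s : Fin K → ℕ) : Prop :=
  |cnt X s * Real.log X ^ K - sing s * X| ≤ ε * (sing s * X) ∧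
  ∀ (e : Fin L → ℝ) (w : ℕ → ℂ), (∀ j, e j = 1 ∨ e j = -1) → (∀ n, ‖w n‖ ≤ 1) →
    ∑ t ∈ Fintype.piFinset (fun _ : Fin L => Icc 1 X), (‖(2 : ℂ) ^ L * (∑ n ∈ (pts X s).filter fun n => ∀ j, lm (n + t j) = e j, w n) -
      ∑ n ∈ pts X s, w n‖ * Real.log X ^ K) ^ 2 ≤ (X : ℝ) ^ L * (ε * (sing s * X)) ^ 2

lemma GoodHC.mono {K X L : ℕ} {ε ε' : ℝ} {s : Fin K → ℕ} (h0 : 0 < ε) (hε : ε ≤ ε') (h : GoodHC X L ε s) : GoodHC X L ε' s := by
  have hS : 0 ≤ sing s * X := by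
    have := (abs_nonneg _).trans h.1
    by_contra hneg
    push Not at hneg
    nlinarith
  have h2 : (ε * (sing s * X)) ^ 2 ≤ (ε' * (sing s * X)) ^ 2 := by gcongr
  exact ⟨h.1.trans (by gcongr), fun e w he hw => (h.2 e w he hw).trans (by gcongr)⟩

/-- the pairs of points in an exceptional set -/
lemma pair_count {K X : ℕ} (hX : 3 ≤ X) (s : Fin K → ℕ) (E : Finset (ℕ × ℕ)) (E' : ℕ × ℕ → Prop) [DecidablePred E']
    (hE : ∀ q, q.1 ∈ Ioc X (2 * X) → q.2 ∈ Ioc X (2 * X) → (q ∈ E → E' q)) :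
    (((pts X s ×ˢ pts X s).filter fun q => q ∈ E).card : ℝ) * (Real.log X ^ K) ^ 2 ≤
      ∑ q ∈ (Ioc X (2 * X) ×ˢ Ioc X (2 * X)).filter E', ∏ i, wt (q.1 + s i) * wt (q.2 + s i) := by
  have hXr : (3 : ℝ) ≤ X := by exact_mod_cast hX
  have hL : 0 ≤ Real.log X := Real.log_nonneg (by linarith)
  rw [← nsmul_eq_mul, ← sum_const]
  refine le_trans (sum_le_sum (g := fun q : ℕ × ℕ => ∏ i, wt (q.1 + s i) * wt (q.2 + s i)) ?_)
    (sum_le_sum_of_subset_of_nonneg ?_ fun q _ _ => prod_nonneg fun i _ => mul_nonneg (wt_nonneg _) (wt_nonneg _))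
  · intro q hq
    rw [mem_filter, mem_product] at hq
    obtain ⟨⟨h1, h2⟩, _⟩ := hq
    unfold pts at h1 h2
    rw [mem_filter, mem_Ioc] at h1 h2
    have e : (Real.log X ^ K) ^ 2 = ∏ _i : Fin K, (Real.log X * Real.log X) := by
      rw [prod_const, card_univ, Fintype.card_fin, mul_pow]; ring
    rw [e]
    apply prod_le_prod (fun _ _ => mul_nonneg hL hL)
    intro i _
    have a1 : Real.log X ≤ wt (q.1 + s i) := by
      unfold wt; rw [if_pos (h1.2 i)]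
      apply Real.log_le_log (by linarith)
      have : X ≤ q.1 + s i := by omega
      exact_mod_cast this
    have a2 : Real.log X ≤ wt (q.2 + s i) := by
      unfold wt; rw [if_pos (h2.2 i)]
      apply Real.log_le_log (by linarith)
      have : X ≤ q.2 + s i := by omega
      exact_mod_cast this
    exact mul_le_mul a1 a2 hL (wt_nonneg _)
  · intro q hq
    rw [mem_filter, mem_product] at hq ⊢
    obtain ⟨⟨h1, h2⟩, h3⟩ := hq
    have b1 : q.1 ∈ Ioc X (2 * X) := (mem_filter.1 h1).1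
    have b2 : q.2 ∈ Ioc X (2 * X) := (mem_filter.1 h2).1
    exact ⟨⟨b1, b2⟩, hE q b1 b2 h3⟩

/-- one tuple -/
lemma good_of {K L X : ℕ} (s : Fin K → ℕ) (E₀ : Finset (ℕ × ℕ)) {δ e ε M : ℝ} (hX : 3 ≤ X)
    (he : 0 < e) (he1 : e ≤ 1) (heε : 8 * e ≤ ε) (hε1 : ε ≤ 1) (hδ : 0 ≤ δ) (hδ1 : δ ≤ e ^ 2) (hLδ : 10 * L * δ ≤ e ^ 2)
    (hpn : ∀ n ∈ Ioc X (2 * X), |∑ t ∈ Icc 1 X, lm (n + t)| ≤ δ * X)
    (hc : ∀ n ∈ Ioc X (2 * X), ∀ m ∈ Ioc X (2 * X), n ≠ m → (n, m) ∉ E₀ → |∑ t ∈ Icc 1 X, lm (n + t) * lm (m + t)| ≤ δ * X)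
    (hS : 0 < sing s * X) (h1 : |cnt X s * Real.log X ^ K - sing s * X| ≤ ε / 2 * (sing s * X)) (hM0 : 0 ≤ M) (hM : M ≤ 2 * (sing s * X))
    (hP : 2 ^ (L + 2) * ∑ q ∈ (Ioc X (2 * X) ×ˢ Ioc X (2 * X)).filter (fun q => q ∈ E₀ ∨ q.1 = q.2), ∏ i, wt (q.1 + s i) * wt (q.2 + s i) ≤
      e ^ 2 * M ^ 2) :
    GoodHC X L ε s := by
  set E : Finset (ℕ × ℕ) := E₀ ∪ (Ioc X (2 * X) ×ˢ Ioc X (2 * X)).filter (fun q => q.1 = q.2) with hE
  set P := pts X s with hPdef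
  set S : ℝ := sing s * X with hSdef
  set N : ℝ := (P.card : ℝ) with hN
  set Lk : ℝ := Real.log X ^ K with hLk
  have hXr : (3 : ℝ) ≤ X := by exact_mod_cast hX
  have hLX : 0 ≤ Real.log X := Real.log_nonneg (by linarith)
  have hLk0 : 0 ≤ Lk := by positivity
  have hNc : (cnt X s : ℝ) = N := by rw [hN, hPdef, pts_card]
  rw [hNc] at h1
  set Qc : ℝ := (((P ×ˢ P).filter fun q => q ∈ E).card : ℝ) with hQ
  set PR : ℝ := ∑ q ∈ (Ioc X (2 * X) ×ˢ Ioc X (2 * X)).filter (fun q => q ∈ E₀ ∨ q.1 = q.2), ∏ i, wt (q.1 + s i) * wt (q.2 + s i) with hPR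
  have hQP : Qc * Lk ^ 2 ≤ PR := by
    apply pair_count hX s E
    intro q _ _ hq
    rw [hE, mem_union, mem_filter] at hq
    rcases hq with hq | hq
    · exact Or.inl hq
    · exact Or.inr hq.2
  have hPX : ∀ n ∈ P, n ∈ Ioc X (2 * X) := fun n hn => (mem_filter.1 hn).1
  have hcE : ∀ n ∈ P, ∀ m ∈ P, (n, m) ∉ E → |∑ t ∈ Icc 1 X, lm (n + t) * lm (m + t)| ≤ δ * X := by
    intro n hn m hm hnm
    rw [hE, mem_union, not_or, mem_filter, not_and] at hnm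
    refine hc n (hPX n hn) m (hPX m hm) ?_ hnm.1
    exact hnm.2 (mem_product.2 ⟨hPX n hn, hPX m hm⟩)
  have hPR0 : 0 ≤ PR := sum_nonneg fun q _ => prod_nonneg fun i _ => mul_nonneg (wt_nonneg _) (wt_nonneg _)
  have hpow : (1 : ℝ) ≤ 2 ^ (L + 2) := one_le_pow₀ (by norm_num)
  have hM2 : M ^ 2 ≤ 4 * S ^ 2 := by nlinarith
  have hPR2 : 2 ^ (L + 2) * PR ≤ 4 * e ^ 2 * S ^ 2 := by
    refine hP.trans ?_
    nlinarith [sq_nonneg e]
  have hPR1 : PR ≤ 4 * e ^ 2 * S ^ 2 := by nlinarith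
  have hNL0 : 0 ≤ N * Lk := by positivity
  have hNL : N * Lk ≤ 2 * S := by
    have := (abs_le.1 h1).2
    nlinarith
  have hNL2 : (N * Lk) ^ 2 ≤ 4 * S ^ 2 := by nlinarith
  have hd2 : (N * Lk - S) ^ 2 ≤ (ε / 2 * S) ^ 2 := by
    rw [← sq_abs (N * Lk - S)]
    have := abs_nonneg (N * Lk - S)
    gcongr
  have hε0 : 0 < ε := by linarith
  have h64 : 64 * e ^ 2 ≤ ε ^ 2 := by nlinarith
  have hS2 : 0 ≤ S ^ 2 := by positivity
  refine ⟨?_, ?_⟩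
  · rw [hNc]
    refine h1.trans ?_
    have : 0 ≤ ε * S := by positivity
    linarith
  · intro u w hu hw
    have k1 := sgnw X L P E lm u δ w (by omega) hδ (by nlinarith [sq_nonneg e]) lm_cases hu hw (fun n hn => hpn n (hPX n hn)) hcE
    have hXL : (0 : ℝ) ≤ (X : ℝ) ^ L := by positivity
    have k2 : ∑ t ∈ Fintype.piFinset (fun _ : Fin L => Icc 1 X), (‖(2 : ℂ) ^ L * (∑ n ∈ P.filter fun n => ∀ j, lm (n + t j) = u j, w n) -
        ∑ n ∈ P, w n‖ * Lk) ^ 2 = Lk ^ 2 * ∑ t ∈ Fintype.piFinset (fun _ : Fin L => Icc 1 X),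
        ‖(2 : ℂ) ^ L * (∑ n ∈ P.filter fun n => ∀ j, lm (n + t j) = u j, w n) - ∑ n ∈ P, w n‖ ^ 2 := by
      rw [mul_sum]
      refine sum_congr rfl fun t _ => by ring
    rw [k2]
    refine (mul_le_mul_of_nonneg_left k1 (by positivity : 0 ≤ Lk ^ 2)).trans ?_
    have : Lk ^ 2 * ((X : ℝ) ^ L * (10 * L * δ * N ^ 2 + 2 ^ (L + 2) * Qc)) =
        (X : ℝ) ^ L * (10 * L * δ * (N * Lk) ^ 2 + 2 ^ (L + 2) * (Qc * Lk ^ 2)) := by ring
    rw [this]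
    apply mul_le_mul_of_nonneg_left _ hXL
    have a1 : 10 * L * δ * (N * Lk) ^ 2 ≤ e ^ 2 * (4 * S ^ 2) := by
      apply mul_le_mul hLδ hNL2 (by positivity) (by positivity)
    have a2 : 2 ^ (L + 2) * (Qc * Lk ^ 2) ≤ 2 ^ (L + 2) * PR := by gcongr
    nlinarith

end Pool.Agent.Q145.HC
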