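import Pool.Agent.Q145.HC.LawB
import Pool.Agent.Q145.SZ.SufE

/-!
# Project HC: the exceptional pairs on average
-/

set_option autoImplicit false

namespace Pool.Agent.Q145.HC

open Finset Filter
open Pool.Agent.Q145.SZ

/-- the exceptional and the diagonal pairs of a tuple -/
noncomputable def PRs {K : ℕ} (X : ℕ) (E : Finset (ℕ × ℕ)) (s : Fin K → ℕ) : ℝ :=
  ∑ q ∈ (Ioc X (2 * X) ×ˢ Ioc X (2 * X)).filter (fun q => q ∈ E ∨ q.1 = q.2), ∏ i, wt (q.1 + s i) * wt (q.2 + s i)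

lemma PRs_nonneg {K : ℕ} (X : ℕ) (E : Finset (ℕ × ℕ)) (s : Fin K → ℕ) : 0 ≤ PRs X E s :=
  sum_nonneg fun _ _ => prod_nonneg fun _ _ => mul_nonneg (wt_nonneg _) (wt_nonneg _)

/-- the numerical part -/
lemma num_pair {z X K L a₀ : ℕ} {M C₀ η : ℝ} (hη : 0 < η) (hM : 1 ≤ M) (hMη : 64 / η ≤ M) (hC₀ : 0 ≤ C₀) (ha₀ : C₀ ≤ a₀)
    (pb : S_PWB) (hz1 : Real.exp ((z : ℝ) / 2) ≤ PW z)
    (hX : M ≤ Real.log (Real.log X)) (h1 : 64 * Real.log (Real.log X) ≤ z) (h2 : 64 * z * Real.log (Real.log X) ≤ Real.log X)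
    (hK : 16 * (K + L) ≤ z) :
    2 ^ (L + 2) * ((PW z : ℝ) ^ 2 * C₀ ^ K * (2 / (PW z : ℝ) ^ (a₀ + 6)) + (PW z : ℝ) ^ 2 * (4 * Real.log X ^ 2) ^ K / X) ≤ η := by
  obtain ⟨hL0, hLM, hzM, hzL, hzl, hXe, hLe, hl1, hlL⟩ := elem (C := 64) le_rfl hM hX h1 h2
  set Λ := Real.log X with hL
  set l := Real.log Λ with hl
  set W : ℝ := (PW z : ℝ) with hW
  have hM0 : 0 < M := by linarith
  have hz0 : (0 : ℝ) < z := by linarith
  have hW1 : 1 ≤ W := one_le_PW z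
  have hWe : W ≤ Real.exp (2 * z) := PW_le pb z
  have hKz : (16 : ℝ) * (K + L) ≤ z := by exact_mod_cast hK
  have hK0 : (0 : ℝ) ≤ K := by positivity
  have hL00 : (0 : ℝ) ≤ L := by positivity
  have hX0 : (0 : ℝ) < X := by rw [hXe]; exact Real.exp_pos _
  have hMinv : 1 / M ≤ η / 64 := by
    rw [div_le_iff₀ hM0]; rw [div_le_iff₀ hη] at hMη; linarith
  have hWM : M ≤ W := by
    have : (z : ℝ) / 2 + 1 ≤ Real.exp (z / 2) := Real.add_one_le_exp _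
    linarith
  have hWinv : 1 / W ≤ η / 64 := le_trans (one_div_le_one_div_of_le hM0 hWM) hMinv
  have hW0 : 0 < W := by linarith
  -- 2 ^ (L + 2)
  have h2L : (2 : ℝ) ^ (L + 2) ≤ 4 * W := by
    have h3 : (2 : ℝ) ≤ Real.exp 1 := by linarith [Real.add_one_le_exp (1 : ℝ)]
    calc (2 : ℝ) ^ (L + 2) = 4 * 2 ^ L := by ring
      _ ≤ 4 * (Real.exp 1) ^ L := by gcongr
      _ = 4 * Real.exp (L : ℝ) := by rw [← Real.exp_nat_mul, mul_one]
      _ ≤ 4 * Real.exp ((z : ℝ) / 2) := by gcongr; linarith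
      _ ≤ 4 * W := by gcongr
  have hC₀K : C₀ ^ K ≤ W ^ a₀ := by
    have e1 : C₀ ≤ Real.exp a₀ := ha₀.trans (by linarith [Real.add_one_le_exp (a₀ : ℝ)])
    calc C₀ ^ K ≤ (Real.exp a₀) ^ K := by gcongr
      _ = Real.exp (a₀ * K) := by rw [← Real.exp_nat_mul]; ring_nf
      _ ≤ Real.exp (a₀ * (z / 2)) := by
        apply Real.exp_le_exp.2
        apply mul_le_mul_of_nonneg_left _ (by positivity)
        linarith
      _ = Real.exp (z / 2) ^ a₀ := by rw [← Real.exp_nat_mul]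
      _ ≤ W ^ a₀ := by gcongr
  have t1 : 2 ^ (L + 2) * (W ^ 2 * C₀ ^ K * (2 / W ^ (a₀ + 6))) ≤ η / 2 := by
    calc 2 ^ (L + 2) * (W ^ 2 * C₀ ^ K * (2 / W ^ (a₀ + 6))) ≤ (4 * W) * (W ^ 2 * W ^ a₀ * (2 / W ^ (a₀ + 6))) := by gcongr
      _ = 8 / W ^ 3 := by
        rw [pow_add]; field_simp; ring
      _ ≤ 8 * (1 / W) := by
        rw [div_eq_mul_one_div]
        gcongr
        exact le_self_pow₀ hW1 (by norm_num)
      _ ≤ 8 * (η / 64) := by gcongr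
      _ ≤ η / 2 := by linarith
  have hlog4 : (4 * Λ ^ 2) ^ K ≤ Real.exp (z * l) := by
    have h4 : 4 * Λ ^ 2 ≤ Real.exp (4 * l) := by
      have h5 : (2 : ℝ) ≤ Real.exp l := by linarith [Real.add_one_le_exp l]
      have h6 : Real.exp (4 * l) = Real.exp l * Real.exp l * (Real.exp l) ^ 2 := by
        rw [← Real.exp_nat_mul, ← Real.exp_add, ← Real.exp_add]; congr 1; push_cast; ring
      rw [h6, ← hLe]
      have h7 : (2 : ℝ) ≤ Λ := by rw [hLe]; exact h5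
      have h8 : 4 ≤ Λ * Λ := by nlinarith
      gcongr
    calc (4 * Λ ^ 2) ^ K ≤ (Real.exp (4 * l)) ^ K := by gcongr
      _ = Real.exp (K * (4 * l)) := by rw [← Real.exp_nat_mul]
      _ ≤ Real.exp (z * l) := by
        apply Real.exp_le_exp.2
        nlinarith
  have t2 : 2 ^ (L + 2) * (W ^ 2 * (4 * Λ ^ 2) ^ K / X) ≤ η / 2 := by
    have hexp : Real.exp (8 * z + z * l - Λ) ≤ 1 / M := by
      have h5 : 8 * (z : ℝ) + z * l - Λ ≤ -M := by nlinarith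
      refine (Real.exp_le_exp.2 h5).trans ?_
      have h := exp_neg_le_inv (x := M) hM0
      exact h
    have hWW : W * W ^ 2 ≤ Real.exp (6 * z) := by
      calc W * W ^ 2 = W ^ 3 := by ring
        _ ≤ (Real.exp (2 * z)) ^ 3 := by gcongr
        _ = Real.exp (6 * z) := by rw [← Real.exp_nat_mul]; ring_nf
    have h4 : (4 : ℝ) ≤ Real.exp (2 * z) := by
      have := Real.add_one_le_exp (2 * (z : ℝ)); linarith
    calc 2 ^ (L + 2) * (W ^ 2 * (4 * Λ ^ 2) ^ K / X) ≤ (4 * W) * (W ^ 2 * Real.exp (z * l) / X) := by gcongr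
      _ = 4 * (W * W ^ 2) * Real.exp (z * l) * (1 / X) := by ring
      _ ≤ Real.exp (2 * z) * Real.exp (6 * z) * Real.exp (z * l) * (1 / X) := by gcongr
      _ = Real.exp (8 * z + z * l - Λ) := by
        have : (1 : ℝ) / X = Real.exp (-Λ) := by
          rw [Real.exp_neg, ← hXe, one_div]
        rw [this, ← Real.exp_add, ← Real.exp_add, ← Real.exp_add]; congr 1; ring
      _ ≤ 1 / M := hexp
      _ ≤ η / 64 := hMinv
      _ ≤ η / 2 := by linarith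
  rw [mul_add]
  linarith

open Classical in
lemma pair_bound (mome : S_MOME) (hs : S_HS') (sv : S_SIEVE) (pb : S_PWB) (us : S_US) :
    ∃ a : ℕ, ∀ η : ℝ, 0 < η → ∃ M : ℝ, 1 ≤ M ∧ ∀ z X K L : ℕ, M ≤ Real.log (Real.log X) →
      64 * Real.log (Real.log X) ≤ z → 64 * z * Real.log (Real.log X) ≤ Real.log X → 16 * (K + L) ≤ z →
      ∀ E : Finset (ℕ × ℕ), (E.card : ℝ) ≤ (X : ℝ) ^ 2 / (PW z : ℝ) ^ (2 * a) →
      ∑ b ∈ Ad (PW z) K, (∑ s ∈ Sb X b, 2 ^ (L + 2) * (PRs X E s / Mb X b ^ 2)) / ((Sb X b).card : ℝ) ≤ η * ((Ad (PW z) K).card : ℝ) := by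
  obtain ⟨Cs, Xs, hCs, hsv⟩ := sv
  obtain ⟨Ch, zh, hCh, hhs⟩ := hs
  obtain ⟨z₁, hz₁⟩ := pb.2
  obtain ⟨a₀, ha₀⟩ := exists_nat_ge (2 * Cs)
  refine ⟨a₀ + 6, ?_⟩
  intro η hη
  set M : ℝ := 1 + 64 / η + Real.exp Ch + zh + z₁ + Xs with hM
  have p1 : 0 < 64 / η := by positivity
  have p4 := Real.exp_pos Ch
  have p5 : (0 : ℝ) ≤ zh := by positivity
  have p6 : (0 : ℝ) ≤ z₁ := by positivity
  have p7 : (0 : ℝ) ≤ Xs := by positivity
  have hM1 : 1 ≤ M := by linarith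
  refine ⟨M, hM1, ?_⟩
  intro z X K L hX hz hzL hK E hE
  obtain ⟨hL0, hLM, hzM, hzL', hzl, hXe, hLe, hl1, hlL⟩ := elem (C := 64) le_rfl hM1 hX hz hzL
  have hM0 : 0 < M := by linarith
  have hz0 : (0 : ℝ) < z := by linarith
  have hz1 : z₁ ≤ z := by
    have : (z₁ : ℝ) ≤ z := by linarith
    exact_mod_cast this
  have hzh : zh ≤ z := by
    have : (zh : ℝ) ≤ z := by linarith
    exact_mod_cast this
  have hz3 : 3 ≤ z := by
    have : (3 : ℝ) ≤ z := by linarith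
    exact_mod_cast this
  have hXL : Real.log X ≤ X := by
    have := Real.add_one_le_exp (Real.log X)
    rw [← hXe] at this; linarith
  have hXs : Xs ≤ X := by
    have : (Xs : ℝ) ≤ X := by linarith
    exact_mod_cast this
  have hX3 : 3 ≤ X := by
    have : (3 : ℝ) ≤ X := by linarith
    exact_mod_cast this
  set Λ := Real.log X with hL
  set l := Real.log Λ with hl
  have hWe : (PW z : ℝ) ≤ Real.exp (2 * z) := PW_le pb z
  have hlogz : Ch ≤ Real.log z := by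
    rw [Real.le_log_iff_exp_le hz0]; linarith
  have hlz0 : 0 < Real.log z := lt_of_lt_of_le hCh hlogz
  have hδ1 : 1 + Ch / Real.log z ≤ 2 := by
    have : Ch / Real.log z ≤ 1 := by rw [div_le_one hlz0]; exact hlogz
    linarith
  have hW20 : (PW z : ℝ) ^ 20 ≤ X := by
    calc (PW z : ℝ) ^ 20 ≤ (Real.exp (2 * z)) ^ 20 := by gcongr
      _ = Real.exp (40 * z) := by rw [← Real.exp_nat_mul]; ring_nf
      _ ≤ Real.exp Λ := Real.exp_le_exp.2 (by linarith)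
      _ = X := hXe.symm
  have hWX : (PW z : ℝ) * 2 ≤ X := by
    calc (PW z : ℝ) * 2 ≤ Real.exp (2 * z) * Real.exp z := by
          gcongr; linarith [Real.add_one_le_exp (z : ℝ)]
      _ = Real.exp (3 * z) := by rw [← Real.exp_add]; ring_nf
      _ ≤ Real.exp Λ := Real.exp_le_exp.2 (by linarith)
      _ = X := hXe.symm
  have hWXn : PW z ≤ X := by
    have : (PW z : ℝ) ≤ X := by linarith
    exact_mod_cast this
  have hLKe : ∀ j : ℕ, (j : ℝ) ≤ 2 * z + 4 → Λ ^ j ≤ Real.exp (Λ / 2) := by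
    intro j hj
    calc Λ ^ j = (Real.exp l) ^ j := by rw [← hLe]
      _ = Real.exp (j * l) := by rw [← Real.exp_nat_mul]
      _ ≤ Real.exp (Λ / 2) := by
        apply Real.exp_le_exp.2
        have : (j : ℝ) * l ≤ (2 * z + 4) * l := by gcongr
        nlinarith
  have hW4 : (PW z : ℝ) ^ 4 ≤ Real.exp (Λ / 2) := by
    calc (PW z : ℝ) ^ 4 ≤ (Real.exp (2 * z)) ^ 4 := by gcongr
      _ = Real.exp (8 * z) := by rw [← Real.exp_nat_mul]; ring_nf
      _ ≤ _ := Real.exp_le_exp.2 (by linarith)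
  have hKz : (16 : ℝ) * (K + L) ≤ z := by exact_mod_cast hK
  have hL00 : (0 : ℝ) ≤ L := by positivity
  have hhs2 := hhs z X (2 * K) hzh (by omega) (by
    calc (PW z : ℝ) ^ 4 * Λ ^ (16 * (2 * K) + 4) ≤ Real.exp (Λ / 2) * Real.exp (Λ / 2) := by
          gcongr
          apply hLKe
          push_cast; linarith
      _ = Real.exp Λ := by rw [← Real.exp_add]; ring_nf
      _ = X := hXe.symm)
  have hSP : ∀ h, 1 / 2 ≤ SP z X h := fun h => us.2.2 z X h hz3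
  have hSP0 : ∀ h, 0 < SP z X h := fun h => lt_of_lt_of_le (by norm_num) (hSP h)
  have f2 := mome (PW z) X K (2 * Cs) (4 * Λ ^ 2) (2 / (PW z : ℝ) ^ (a₀ + 6))
    (fun n m => SP z X (dst n m)) E hWXn (by positivity) (by positivity) (by positivity)
    (fun n m => hSP0 _) (fun n hn m hm β hβ => B2_zero hWXn hn hm hβ)
    (fun n hn m hm hnm β => B2_le hCs (hSP0 _).le (by rw [mul_comm]; exact hWX) (hsv z X hXs (by omega) hW20 n hn m hm hnm β))
    (fun n hn β => B2_diag hX3 hn β)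
    (esum (fun h => (hSP0 h).le) (fun c d => (hhs2 c d).trans (mul_le_mul_of_nonneg_left hδ1 (by positivity))) E hE)
  have hnum := num_pair (a₀ := a₀) (L := L) hη hM1 (by linarith) (by positivity : (0:ℝ) ≤ 2 * Cs) ha₀ pb (hz₁ z hz1) hX hz hzL hK
  have hcard : (0 : ℝ) ≤ ((Ad (PW z) K).card : ℝ) := Nat.cast_nonneg _
  have e : ∑ b ∈ Ad (PW z) K, (∑ s ∈ Sb X b, 2 ^ (L + 2) * (PRs X E s / Mb X b ^ 2)) / ((Sb X b).card : ℝ) =
      2 ^ (L + 2) * ∑ b ∈ Ad (PW z) K, (∑ s ∈ Sb X b, (∑ q ∈ (Ioc X (2 * X) ×ˢ Ioc X (2 * X)).filter (fun q => q ∈ E ∨ q.1 = q.2),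
        ∏ i, wt (q.1 + s i) * wt (q.2 + s i)) / Mb X b ^ 2) / (Sb X b).card := by
    rw [mul_sum]
    refine sum_congr rfl fun b _ => ?_
    rw [← mul_sum, mul_div_assoc]
    rfl
  rw [e]
  have h2 : (0 : ℝ) ≤ 2 ^ (L + 2) := by positivity
  calc _ ≤ 2 ^ (L + 2) * (((PW z : ℝ) ^ 2 * (2 * Cs) ^ K * (2 / (PW z : ℝ) ^ (a₀ + 6)) + (PW z : ℝ) ^ 2 * (4 * Λ ^ 2) ^ K / X) * (Ad (PW z) K).card) := by
        gcongr
    _ = (2 ^ (L + 2) * ((PW z : ℝ) ^ 2 * (2 * Cs) ^ K * (2 / (PW z : ℝ) ^ (a₀ + 6)) + (PW z : ℝ) ^ 2 * (4 * Λ ^ 2) ^ K / X)) * (Ad (PW z) K).card := by ring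
    _ ≤ η * (Ad (PW z) K).card := mul_le_mul_of_nonneg_right hnum hcard

end Pool.Agent.Q145.HC
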