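import Pool.Agent.Q145.HC.LawC

/-!
# Project HC: almost all tuples
-/

set_option autoImplicit false

namespace Pool.Agent.Q145.HC

open Finset Filter
open Pool.Agent.Q145.SZ

open Classical in
/-- all but a proportion `ε` of the admissible tuples are good -/
def HCK (X K L : ℕ) (ε : ℝ) : Prop :=
  (((AT X K).filter fun s => ¬ GoodHC X L ε s).card : ℝ) ≤ ε * (AT X K).card

/-- the conclusion of `pair_bound` with a fixed `a` -/
def PB (a : ℕ) : Prop := ∀ η : ℝ, 0 < η → ∃ M : ℝ, 1 ≤ M ∧ ∀ z X K L : ℕ, M ≤ Real.log (Real.log X) →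
      64 * Real.log (Real.log X) ≤ z → 64 * z * Real.log (Real.log X) ≤ Real.log X → 16 * (K + L) ≤ z →
      ∀ E : Finset (ℕ × ℕ), (E.card : ℝ) ≤ (X : ℝ) ^ 2 / (PW z : ℝ) ^ (2 * a) →
      ∑ b ∈ Ad (PW z) K, (∑ s ∈ Sb X b, 2 ^ (L + 2) * (PRs X E s / Mb X b ^ 2)) / ((Sb X b).card : ℝ) ≤ η * ((Ad (PW z) K).card : ℝ)

lemma HCK.mono {X K L : ℕ} {ε ε' : ℝ} (h0 : 0 < ε) (hε : ε ≤ ε') (h : HCK X K L ε) : HCK X K L ε' := by
  classical
  unfold HCK at *
  have h1 : (((AT X K).filter fun s => ¬ GoodHC X L ε' s).card : ℝ) ≤ (((AT X K).filter fun s => ¬ GoodHC X L ε s).card : ℝ) := by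
    have : (AT X K).filter (fun s => ¬ GoodHC X L ε' s) ⊆ (AT X K).filter (fun s => ¬ GoodHC X L ε s) := by
      intro s hs
      rw [mem_filter] at hs ⊢
      exact ⟨hs.1, fun h => hs.2 (h.mono h0 hε)⟩
    exact_mod_cast card_le_card this
  refine h1.trans (h.trans ?_)
  gcongr

open Classical in
lemma hc_bound {a a' : ℕ} (vb : VB a) (pbd : PB a') (mbs : S_MBS) (tr : S_TRANS) (tail : S_TAIL') (pb : S_PWB) (pnl : S_PNL) :
    ∀ ε : ℝ, 0 < ε → ∃ M : ℝ, 1 ≤ M ∧ ∀ z X K L : ℕ, M ≤ Real.log (Real.log X) →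
      64 * Real.log (Real.log X) ≤ z → 64 * z * Real.log (Real.log X) ≤ Real.log X → 16 * (K + L) ≤ z →
      H1c (2 * a) z X → H2c (2 * a) z X → LCc (2 * a' + 2) z X → HCK X K L ε := by
  intro ε₁ hε₁
  set ε : ℝ := min ε₁ 1 with hεdef
  have hε : 0 < ε := by positivity
  have hε1 : ε ≤ 1 := min_le_right _ _
  have hεε : ε ≤ ε₁ := min_le_left _ _
  set e : ℝ := ε / 32 with he
  have he0 : 0 < e := by positivity
  obtain ⟨M₁, hM₁, hvb⟩ := vb (e ^ 2 * (ε / 8)) (by positivity)
  obtain ⟨M₂, hM₂, hpbd⟩ := pbd (e ^ 2 * (ε / 8)) (by positivity)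
  obtain ⟨Ct, X₀, z₀, hCt, htail⟩ := tail e he0
  obtain ⟨X₁, hpnl⟩ := pnl (2 * a' + 2)
  set M : ℝ := M₁ + M₂ + X₀ + X₁ + z₀ + Real.exp (8 * Ct / ε) + 1 / e + 1 / e ^ 2 + 3 with hM
  have q1 := Real.exp_pos (8 * Ct / ε)
  have q2 : (0 : ℝ) ≤ X₀ := by positivity
  have q3 : (0 : ℝ) ≤ z₀ := by positivity
  have q4 : 0 < 1 / e := by positivity
  have q5 : 0 < 1 / e ^ 2 := by positivity
  have q6 : (0 : ℝ) ≤ X₁ := by positivity
  have hM1 : 1 ≤ M := by linarith
  refine ⟨M, hM1, ?_⟩
  intro z X K L hX hz hzL hKL H1 H2 HLc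
  have hK : 16 * K ≤ z := by omega
  have hv := hvb z X K (by linarith) hz hzL hK H1 H2
  obtain ⟨E₀, hE₀, hcor⟩ := HLc
  obtain ⟨hL0, hLM, hzM, hzL', hzl, hXe, hLe, hl1, hlL⟩ := elem (C := 64) le_rfl hM1 hX hz hzL
  have hM0 : 0 < M := by linarith
  have hz0 : (0 : ℝ) < z := by linarith
  have hzz : z₀ ≤ z := by
    have : (z₀ : ℝ) ≤ z := by linarith
    exact_mod_cast this
  have hXL : Real.log X ≤ X := by
    have := Real.add_one_le_exp (Real.log X)
    rw [← hXe] at this; linarith
  have hXs : X₀ ≤ X := by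
    have : (X₀ : ℝ) ≤ X := by linarith
    exact_mod_cast this
  have hXs1 : X₁ ≤ X := by
    have : (X₁ : ℝ) ≤ X := by linarith
    exact_mod_cast this
  have hX3 : 3 ≤ X := by
    have : (3 : ℝ) ≤ X := by linarith
    exact_mod_cast this
  have hX0 : (0 : ℝ) < X := by linarith
  have hWe : (PW z : ℝ) ≤ Real.exp (2 * z) := PW_le pb z
  have hlogz : 8 * Ct / ε ≤ Real.log z := by
    rw [Real.le_log_iff_exp_le hz0]; linarith
  have hlz0 : 0 < Real.log z := lt_of_lt_of_le (by positivity) hlogz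
  have hδ : Ct / Real.log z ≤ ε / 8 := by
    rw [div_le_iff₀ hlz0]
    rw [div_le_iff₀ hε] at hlogz
    linarith
  have hW1 := one_le_PW z
  have hp := hpbd z X K L (by linarith) hz hzL hKL E₀ (hE₀.trans (by
    apply div_le_div_of_nonneg_left (by positivity) (by positivity)
    exact pow_le_pow_right₀ hW1 (by omega)))
  -- the small parameter
  set δ : ℝ := 1 / Real.log X ^ (2 * a' + 2) with hδdef
  have hδ0 : 0 ≤ δ := by positivity
  have hLX1 : 1 ≤ Real.log X := hM1.trans hLM
  have hδ2 : δ ≤ 1 / Real.log X ^ 2 := by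
    rw [hδdef]
    apply one_div_le_one_div_of_le (by positivity)
    exact pow_le_pow_right₀ hLX1 (by omega)
  have he2L : 1 / Real.log X ≤ e ^ 2 := by
    have h1 : 1 / e ^ 2 ≤ Real.log X := by linarith
    rw [div_le_iff₀ hL0]
    rw [div_le_iff₀ (by positivity)] at h1
    linarith
  have hδ1 : δ ≤ e ^ 2 := by
    refine hδ2.trans (le_trans ?_ he2L)
    apply one_div_le_one_div_of_le hL0
    nlinarith
  have hKLz : (16 : ℝ) * (K + L) ≤ z := by exact_mod_cast hKL
  have hKnn : (0 : ℝ) ≤ K := by positivity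
  have hLnn : (0 : ℝ) ≤ L := by positivity
  have hLδ : 10 * L * δ ≤ e ^ 2 := by
    have h10 : 10 * (L : ℝ) ≤ Real.log X := by linarith
    calc 10 * L * δ ≤ Real.log X * (1 / Real.log X ^ 2) := by gcongr
      _ = 1 / Real.log X := by field_simp
      _ ≤ e ^ 2 := he2L
  have hdiv : ∀ x : ℝ, x ≤ X / Real.log X ^ (2 * a' + 2) → x ≤ δ * X := by
    intro x hx
    rw [hδdef, one_div_mul_eq_div]
    exact hx
  have hW2 : (PW z : ℝ) ^ 2 ≤ X := by
    calc (PW z : ℝ) ^ 2 ≤ (Real.exp (2 * z)) ^ 2 := by gcongr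
      _ = Real.exp (4 * z) := by rw [← Real.exp_nat_mul]; ring_nf
      _ ≤ Real.exp (Real.log X) := Real.exp_le_exp.2 (by linarith)
      _ = X := hXe.symm
  have hKz : (16 : ℝ) * K ≤ z := by exact_mod_cast hK
  have h8 : 8 * (K + 1) * PW z ≤ X := by
    have : (8 * ((K : ℝ) + 1)) * PW z ≤ X := by
      calc (8 * ((K : ℝ) + 1)) * PW z ≤ Real.exp z * Real.exp (2 * z) := by
            gcongr
            have : (z : ℝ) + 1 ≤ Real.exp z := Real.add_one_le_exp _
            have h2 : (z : ℝ) / 2 + 1 ≤ Real.exp (z / 2) := Real.add_one_le_exp _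
            have h3 : Real.exp z = Real.exp (z / 2) * Real.exp (z / 2) := by rw [← Real.exp_add]; ring_nf
            rw [h3]
            nlinarith
        _ = Real.exp (3 * z) := by rw [← Real.exp_add]; ring_nf
        _ ≤ Real.exp (Real.log X) := Real.exp_le_exp.2 (by linarith)
        _ = X := hXe.symm
    exact_mod_cast this
  have hpow : Real.log (3 * X) ^ K ≤ Real.log X ^ K * (1 + e) := by
    have h3 : Real.log (3 * X) ≤ Real.log X + 2 := by
      rw [Real.log_mul (by norm_num) hX0.ne']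
      have := Real.log_le_sub_one_of_pos (by norm_num : (0 : ℝ) < 3)
      linarith
    have h4 : Real.log X + 2 = Real.log X * (1 + 2 / Real.log X) := by field_simp
    have h5 : (K : ℝ) * (2 / Real.log X) ≤ 1 / (64 * M) := by
      have h6 : 64 * M * K ≤ Real.log X / 2 := by
        have : 64 * M * ((K : ℝ)) ≤ 64 * M * (z / 16) := by
          apply mul_le_mul_of_nonneg_left _ (by positivity)
          linarith
        have h7 : 64 * ((z : ℝ) * M) ≤ Real.log X := by
          have : (z : ℝ) * M ≤ z * Real.log (Real.log X) := by gcongr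
          linarith
        nlinarith
      rw [← mul_div_assoc, div_le_div_iff₀ hL0 (by positivity)]
      nlinarith
    have h6 : 1 / (64 * M) ≤ e / 2 := by
      rw [div_le_div_iff₀ (by positivity) (by norm_num)]
      have h7 : 1 / e ≤ M := by linarith
      rw [div_le_iff₀ he0] at h7
      nlinarith
    have he1 : e ≤ 1 := by rw [he]; linarith
    calc Real.log (3 * X) ^ K ≤ (Real.log X * (1 + 2 / Real.log X)) ^ K := by
          rw [← h4]
          have : 0 ≤ Real.log (3 * X) := Real.log_nonneg (by linarith)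
          gcongr
      _ = Real.log X ^ K * (1 + 2 / Real.log X) ^ K := by rw [mul_pow]
      _ ≤ Real.log X ^ K * (1 + e) := by
          gcongr
          refine (one_add_pow_le (by positivity) (by linarith)).trans ?_
          linarith
  -- apply TRANS
  obtain ⟨E, hE⟩ : ∃ E : (Fin K → ℕ) → Prop, ∀ s, E s ↔ ¬ GoodHC X L ε s :=
    ⟨_, fun _ => Iff.rfl⟩
  have hfin : ∑ b ∈ Ad (PW z) K, (((Sb X b).filter fun s => E s).card : ℝ) /
      (Sb X b).card ≤ (ε / 2) * (Ad (PW z) K).card := by
    have hb : ∀ b ∈ Ad (PW z) K, (((Sb X b).filter fun s => E s).card : ℝ) /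
        (Sb X b).card ≤ (e ^ 2)⁻¹ * ((∑ s ∈ Sb X b, (wc X s / Mb X b - 1) ^ 2) / ((Sb X b).card : ℝ)) +
          (e ^ 2)⁻¹ * ((∑ s ∈ Sb X b, 2 ^ (L + 2) * (PRs X E₀ s / Mb X b ^ 2)) / ((Sb X b).card : ℝ)) + ε / 8 := by
      intro b hb
      rcases Nat.eq_zero_or_pos (Sb X b).card with h0 | h0
      · rw [h0]; simp; positivity
      have h0' : (0 : ℝ) < (Sb X b).card := by exact_mod_cast h0
      have hMb0 : 0 < Mb X b := by
        unfold Ad at hb
        rw [mem_filter] at hb
        have : (0 : ℝ) < (Gs b).card := by exact_mod_cast card_pos.2 hb.2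
        have hv := vv_pos z
        have hW : (0 : ℝ) < PW z := by exact_mod_cast PW_pos z
        unfold Mb
        exact mul_pos (div_pos (mul_pos hX0 this) hW) (pow_pos hv K)
      have hsub : (Sb X b).filter (fun s => E s) ⊆
          ((Sb X b).filter (fun s => e < |wc X s / Mb X b - 1|) ∪
            (Sb X b).filter (fun s => e ^ 2 < 2 ^ (L + 2) * (PRs X E₀ s / Mb X b ^ 2))) ∪
            (Sb X b).filter (fun s => ¬ (|sing s - singP s z| ≤ e * singP s z)) := by
        intro s hs
        rw [mem_filter] at hs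
        obtain ⟨hs1, hs2⟩ := hs
        rw [hE] at hs2
        rw [mem_union, mem_union, mem_filter, mem_filter, mem_filter]
        by_contra hcon
        push Not at hcon
        obtain ⟨⟨c1, c3⟩, c2⟩ := hcon
        have c1 := c1 hs1
        have c2 := c2 hs1
        have c3 := c3 hs1
        apply hs2
        have hsb : (fun i => ((s i : ℕ) : ZMod (PW z))) = b := by
          funext i
          have := Fintype.mem_piFinset.1 hs1 i
          unfold cls at this
          exact (mem_filter.1 this).2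
        have hsX : ∀ i, s i ≤ X := fun i => by
          have := Fintype.mem_piFinset.1 hs1 i
          unfold cls at this
          exact (mem_Icc.1 (mem_filter.1 this).1).2
        have hMb := (mbs z X K s).1
        rw [hsb] at hMb
        have hbd := wc_bounds hX3 s hsX
        have e1 : |wc X s - Mb X b| ≤ e * Mb X b := by
          have : wc X s - Mb X b = (wc X s / Mb X b - 1) * Mb X b := by field_simp
          rw [this, abs_mul, abs_of_pos hMb0]
          gcongr
        have e2 : |sing s * X - Mb X b| ≤ e * Mb X b := by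
          rw [hMb]
          have : sing s * X - X * singP s z = (sing s - singP s z) * X := by ring
          rw [this, abs_mul, abs_of_pos hX0]
          calc _ ≤ e * singP s z * X := by gcongr
            _ = _ := by ring
        have e3 : |cnt X s * Real.log X ^ K - sing s * X| ≤ ε / 2 * (sing s * X) := by
          apply final_num (w := wc X s) (e := e) (S := Mb X b) he0 (by rw [he]; linarith) (by rw [he]; linarith) hMb0 e1 e2 hbd.1
          calc wc X s ≤ cnt X s * Real.log (3 * X) ^ K := hbd.2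
            _ ≤ cnt X s * (Real.log X ^ K * (1 + e)) := by gcongr
            _ = _ := by ring
        have e4 : Mb X b ≤ 2 * (sing s * X) := by
          have := (abs_le.1 e2).1
          have : e * Mb X b ≤ 1 / 2 * Mb X b := by
            apply mul_le_mul_of_nonneg_right _ hMb0.le
            rw [he]; linarith
          linarith
        refine good_of s E₀ (δ := δ) (e := e) (M := Mb X b) hX3 he0 (by rw [he]; linarith) (by rw [he]; linarith) hε1 hδ0 hδ1 hLδ
          (fun n hn => hdiv _ (hpnl X hXs1 n hn)) (fun n hn m hm hnm hE' => hdiv _ (hcor n hn m hm hnm hE')) (by linarith) e3 hMb0.le e4 ?_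
        have e5 : 2 ^ (L + 2) * (PRs X E₀ s / Mb X b ^ 2) * Mb X b ^ 2 ≤ e ^ 2 * Mb X b ^ 2 := by gcongr
        have e6 : 2 ^ (L + 2) * (PRs X E₀ s / Mb X b ^ 2) * Mb X b ^ 2 = 2 ^ (L + 2) * PRs X E₀ s := by
          field_simp
        rw [e6] at e5
        exact e5
      have hc1 : (((Sb X b).filter fun s => e < |wc X s / Mb X b - 1|).card : ℝ) ≤ (e ^ 2)⁻¹ * ∑ s ∈ Sb X b, (wc X s / Mb X b - 1) ^ 2 := by
        rw [card_eq_sum_ones, Nat.cast_sum, mul_sum]
        push_cast
        refine le_trans ?_ (sum_le_sum_of_subset_of_nonneg (filter_subset (fun s => e < |wc X s / Mb X b - 1|) (Sb X b)) (fun s _ _ => by positivity))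
        apply sum_le_sum
        intro s hs
        rw [mem_filter] at hs
        have h3 : e ^ 2 ≤ (wc X s / Mb X b - 1) ^ 2 := by
          rw [← sq_abs (wc X s / Mb X b - 1)]
          have := hs.2
          gcongr
        rw [inv_mul_eq_div, le_div_iff₀ (by positivity)]
        linarith
      have hPn : ∀ s : Fin K → ℕ, 0 ≤ (2 : ℝ) ^ (L + 2) * (PRs X E₀ s / Mb X b ^ 2) := fun s =>
        mul_nonneg (by positivity) (div_nonneg (PRs_nonneg X E₀ s) (by positivity))
      have hc4 : (((Sb X b).filter fun s => e ^ 2 < 2 ^ (L + 2) * (PRs X E₀ s / Mb X b ^ 2)).card : ℝ) ≤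
          (e ^ 2)⁻¹ * ∑ s ∈ Sb X b, 2 ^ (L + 2) * (PRs X E₀ s / Mb X b ^ 2) := by
        rw [card_eq_sum_ones, Nat.cast_sum, mul_sum]
        push_cast
        refine le_trans ?_ (sum_le_sum_of_subset_of_nonneg (filter_subset (fun s => e ^ 2 < 2 ^ (L + 2) * (PRs X E₀ s / Mb X b ^ 2)) (Sb X b))
          (fun s _ _ => mul_nonneg (by positivity) (hPn s)))
        apply sum_le_sum
        intro s hs
        rw [mem_filter] at hs
        rw [inv_mul_eq_div, le_div_iff₀ (by positivity)]
        linarith [hs.2]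
      have hc2 := htail z X K hXs hzz (by omega) (by linarith) hW2 b
      have hc3 : (((Sb X b).filter fun s => E s).card : ℝ) ≤
          (e ^ 2)⁻¹ * ∑ s ∈ Sb X b, (wc X s / Mb X b - 1) ^ 2 +
          (e ^ 2)⁻¹ * ∑ s ∈ Sb X b, 2 ^ (L + 2) * (PRs X E₀ s / Mb X b ^ 2) + ε / 8 * (Sb X b).card := by
        have h3 := card_le_card hsub
        have h4 := h3.trans ((card_union_le _ _).trans (Nat.add_le_add_right (card_union_le _ _) _))
        have h5 : (((Sb X b).filter fun s => E s).card : ℝ) ≤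
          (((Sb X b).filter fun s => e < |wc X s / Mb X b - 1|).card : ℝ) +
          (((Sb X b).filter fun s => e ^ 2 < 2 ^ (L + 2) * (PRs X E₀ s / Mb X b ^ 2)).card : ℝ) +
          (((Sb X b).filter (fun s => ¬ (|sing s - singP s z| ≤ e * singP s z))).card : ℝ) := by
          exact_mod_cast h4
        have h6 : Ct / Real.log z * ((Sb X b).card : ℝ) ≤ ε / 8 * (Sb X b).card := mul_le_mul_of_nonneg_right hδ (Nat.cast_nonneg _)
        linarith
      rw [div_le_iff₀ h0']
      refine hc3.trans (le_of_eq ?_)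
      rw [add_mul, add_mul, mul_assoc (e ^ 2)⁻¹, mul_assoc (e ^ 2)⁻¹, div_mul_cancel₀ _ h0'.ne', div_mul_cancel₀ _ h0'.ne']
    have hA0 : (0 : ℝ) ≤ ((Ad (PW z) K).card : ℝ) := Nat.cast_nonneg _
    have he2 : (0 : ℝ) ≤ (e ^ 2)⁻¹ := by positivity
    have hv2 := mul_le_mul_of_nonneg_left hv he2
    have hp2 := mul_le_mul_of_nonneg_left hp he2
    have hcan : (e ^ 2)⁻¹ * (e ^ 2 * (ε / 8) * ((Ad (PW z) K).card : ℝ)) = ε / 8 * ((Ad (PW z) K).card : ℝ) := by
      rw [← mul_assoc, ← mul_assoc, inv_mul_cancel₀ (by positivity), one_mul]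
    rw [hcan] at hv2 hp2
    have hs := sum_le_sum hb
    rw [sum_add_distrib, sum_add_distrib, ← mul_sum, ← mul_sum, sum_const, nsmul_eq_mul] at hs
    have hεA : 0 ≤ ε * ((Ad (PW z) K).card : ℝ) := mul_nonneg hε.le hA0
    linarith
  have ht := tr mbs z X K E (ε / 2) (by omega) h8 hfin
  have ht2 : (((AT X K).filter fun s => E s).card : ℝ) ≤ ε * ((AT X K).card : ℝ) := by
    refine ht.trans (le_of_eq ?_)
    ring
  refine HCK.mono hε hεε ?_
  unfold HCK
  have hfe : (AT X K).filter (fun s => ¬ GoodHC X L ε s) = (AT X K).filter fun s => E s :=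
    filter_congr fun s _ => (hE s).symm
  rw [hfe]
  exact ht2

end Pool.Agent.Q145.HC
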