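import Pool.Agent.Q145.SZ.Suf

/-!
# Project HC (helper145): the Hardy-Littlewood-Chowla conjecture in growing dimension. Part 1

For almost all admissible `s ∈ [1, X]^K` and almost all `t ∈ [1, X]^L`, `K + L ≤ c log X / log log X`: the number of `X < n ≤ 2X` with `n + s_1, ..., n + s_K` prime and
`λ(n + t_j) = ε_j` for all `j` is `(1 + o(1)) 2^{-L} 𝔖(s) X / log^K X`. The primes are project SZ (`Pool/Agent/Q145/SZ`); new here is the Liouville function `lm`: mean squares of its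
character sums over all primitive characters of conductor `≤ F = exp (c log X / log log X)`, so `∑_{s ≤ X} λ(n + s) λ(m + s)` is small for all pairs `(n, m)` outside a very small set.

Every `S_...` is a `Prop` with a complete proof in its docstring. A job = a theorem `Pool.Agent.Q145.HC.t_... : S_...` in its own file, which imports this file (and whatever library file it uses).
The analytic base is the library of helper66 (`Pool/Agent/W66`): `hat`, `tri`, `triC`, `boxC`, `kap`, `bbC`, `ggC`, `aw`, `muw`, `mz`, `lq Q t = log Q + ell t`, `ell t = log (|t| + 3)`.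
-/

set_option autoImplicit false

namespace Pool.Agent.Q145.HC

open Finset Filter Complex MeasureTheory
open scoped Real FourierTransform
open Pool.Agent.W66 Pool.Agent.W66L
open Pool.Agent.H807R2.Dav (ee)
open Pool.Agent.Q145.SZ

/-- the Liouville function -/
noncomputable def lm (n : ℕ) : ℝ := (-1) ^ (ArithmeticFunction.cardFactors n)

/-- `χ λ` -/
noncomputable def xl {Q : ℕ} (χ : DirichletCharacter ℂ Q) (n : ℕ) : ℂ := χ n * ((lm n : ℝ) : ℂ)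

/-- no zeros of `L(s, χ)` in `Re s > 1 - ω`, `|Im s| ≤ T` (for `Q = 1` this is `ζ`; the point `1` is excluded because of the pole) -/
def ZFL {Q : ℕ} [NeZero Q] (χ : DirichletCharacter ℂ Q) (ω T : ℝ) : Prop := ∀ s : ℂ, 1 - ω < s.re → |s.im| ≤ T → s ≠ 1 → χ.LFunction s ≠ 0

/-! ## Layer A: `1 / L(s, χ)` near the line `Re s = 1` -/

/-- **LID** (Dirichlet series of `χ λ`): for `Re s > 1`, `(∑ χ(n)λ(n) n^{-s}) L(s, χ) = ∑ χ(m)² m^{-2s}`; the right side is analytic and bounded by `ζ(3/2) ≤ 3` for `Re s ≥ 3/4`.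
Proof. The Dirichlet convolution of `χ λ` and `χ` is `χ(n) ∑_{d | n} λ(d)`, and `∑_{d | n} λ(d)` is `1` if `n` is a square and `0` otherwise (multiplicativity; or the library:
`grep cardFactors`). So the product of the two `LSeries` (`LSeries_convolution'` / `LSeries_mul`) is the `LSeries` of `n ↦ χ(n) [n is a square]`, i.e. `∑_m χ(m)² m^{-2s}`. For `Re w ≥ 3/2`, `‖∑_m χ(m)² m^{-w}‖ ≤ ∑ m^{-3/2} ≤ 3`. -/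
def S_LID : Prop := ∀ (Q : ℕ) [NeZero Q] (χ : DirichletCharacter ℂ Q),
  (∀ s : ℂ, 1 < s.re → LSeries (xl χ) s * χ.LFunction s = LSeries (fun n : ℕ => (χ n) ^ 2) (2 * s)) ∧
  (∀ s : ℂ, 3 / 4 ≤ s.re → DifferentiableAt ℂ (fun s : ℂ => LSeries (fun n : ℕ => (χ n) ^ 2) (2 * s)) s ∧
    ‖LSeries (fun n : ℕ => (χ n) ^ 2) (2 * s)‖ ≤ 3)

/-- **BCL** (lower bound from the Borel-Caratheodory theorem, in Mathlib `Complex.borelCaratheodory...` or prove it from the library). Proof. `F` has no zeros in the ball `ball c (2r)`, so `F = F(c) exp g` there with `g` analytic, `g(c) = 0`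
(simply connected domain; e.g. a primitive of `F'/F`). `Re g = log (‖F‖/‖F(c)‖) ≤ log (M/m) =: A`, `A ≥ 0`. Borel-Caratheodory on `ball c ρ`, `ρ ↑ 2r`: `‖g(z)‖ ≤ 2 r A/(ρ - r)` for `‖z - c‖ ≤ r`; `ρ → 2r`: `‖g‖ ≤ 2A`. So `‖F(z)‖ ≥ ‖F(c)‖ e^{-2A} ≥ m (m/M)²`. -/
def S_BCL : Prop := ∀ (F : ℂ → ℂ) (c : ℂ) (r m M : ℝ), 0 < r → 0 < m → m ≤ ‖F c‖ → DifferentiableOn ℂ F (Metric.ball c (2 * r)) → (∀ z ∈ Metric.ball c (2 * r), F z ≠ 0) →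
  (∀ z ∈ Metric.ball c (2 * r), ‖F z‖ ≤ M) → ∀ z ∈ Metric.closedBall c r, m * (m / M) ^ 2 ≤ ‖F z‖

/-- **LUP** (growth near `Re s = 1`). Proof. `χ ≠ 1`: `H307R2.LFunction_eq` (`Pool/Agent/H307R2/LU.lean`, used in `LF_growth`, `W66/LA.lean`) with `N = ⌈Q (|t| + 3)⌉` and `TM_norm_le`: `‖L(s, χ)‖ ≤ ∑_{n ≤ N} n^{-σ} + ‖s‖ Q N^{-σ}/σ`;
for `σ ≥ 1 - ω ≥ 3/4`: `∑_{n ≤ N} n^{-σ} ≤ N^ω (1 + log N)`, `N ≤ 2 Q (|t| + 3)`, `N^ω ≤ 2 e^{ω lq}`, and the second term is `≤ C N^{1-σ}` (`‖s‖ Q ≤ 3 N`). `Q = 1`: the same for `ζ` (Euler-Maclaurin of order one, Mathlib or library):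
`‖(s - 1) ζ(s)‖ ≤ C (‖s - 1‖ N^ω (1 + log N) + N^{ω} + ...)`, `N = ⌈|t| + 3⌉`: it gives the second claim. -/
def S_LUP : Prop := ∃ C : ℝ, 1 ≤ C ∧ ∀ ω : ℝ, 0 < ω → ω ≤ 1 / 4 →
  (∀ (Q : ℕ) [NeZero Q] (χ : DirichletCharacter ℂ Q), χ ≠ 1 → ∀ s : ℂ, 1 - ω ≤ s.re → s.re ≤ 3 → ‖χ.LFunction s‖ ≤ C * lq Q s.im * Real.exp (ω * lq Q s.im)) ∧
  (∀ s : ℂ, 1 - ω ≤ s.re → s.re ≤ 3 → ‖(s - 1) * riemannZeta s‖ ≤ C * (1 + ‖s - 1‖) * ell s.im * Real.exp (ω * ell s.im))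

/-- **GEX** (the analytic continuation of `∑ χ(n)λ(n) n^{-s}` with a bound; from LID, BCL, LUP). Proof. Let `N(s) = LSeries (χ²) (2s)`. Case `χ ≠ 1`: `G = N/L(·, χ)`. On `Re s > 1` it is the series (LID, `L ≠ 0` there). Let `z` with `1 - ω/4 ≤ Re z ≤ 2`,
`|Im z| ≤ T - 2`. If `Re z ≥ 1 + ω/4`: `‖1/L(z)‖ ≤ ζ(1 + ω/4) ≤ 1 + 4/ω ≤ 5/ω` (`1/L = ∑ μχ n^{-z}`, `DirichletCharacter.LSeries.mul_mu_eq_one`). Otherwise take `c = ⟨1 + ω/4, Im z⟩`, `r = ω/2`: the ball `ball c ω` is in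
`Re > 1 - 3ω/4`, `|Im| ≤ T` (no zeros, ZFL; the point `1` is harmless: `L(1, χ) ≠ 0`, Mathlib), `M = C (2 lq) e^{2 ω lq}`-type bound by LUP (`lq` at points at distance `≤ 1` is at most `lq + 1`-ish; use `lq_near` or directly `ell (t + 1) ≤ ell t + 1/3`), `m = ω/5`
(`‖1/L(c)‖ ≤ 5/ω`), `‖z - c‖ ≤ ω/2`: BCL: `‖1/L(z)‖ ≤ m^{-3} M² ≤ C (lq e^{ω lq}/ω)^4`-ish (`e^{ω (lq+1)} ≤ 2 e^{ω lq}`, exponents: `M²` has `e^{2 ω lq}`, and `4 ≥ 3, 2`). `‖N‖ ≤ 3`.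
Case `Q = 1` (`χ = 1`, `LFunction = riemannZeta`): `H(s) = (s - 1) ζ(s)` entire after filling in the value `1` at `s = 1` (Mathlib: `differentiableAt_riemannZeta`, residue; library `W66` has it), `G(s) = N(s)(s - 1)/H(s)`; the same with `H`:
no zeros (`H(1) = 1`), `m = ‖c - 1‖ ω/5 ≥ ω²/20`, more precisely `‖H(c)‖ ≥ ‖c - 1‖ ω/5`; `M ≤ C (1 + ...)`: if `|Im z| ≥ 1` all `‖s - 1‖` in the ball are within a factor `2` of `‖c - 1‖`, and the factor cancels in `m³/M²` against `‖z - 1‖`;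
if `|Im z| < 1` everything is bounded by powers of `1/ω`. The exponent `8` leaves room. -/
def S_GEX : Prop := S_LID → S_BCL → S_LUP → ∃ C : ℝ, 1 ≤ C ∧ ∀ (Q : ℕ) [NeZero Q] (χ : DirichletCharacter ℂ Q), (χ ≠ 1 ∨ Q = 1) → ∀ ω T : ℝ, 0 < ω → ω ≤ 1 / 4 → ZFL χ ω T →
  ∃ G : ℂ → ℂ, (∀ s : ℂ, 1 < s.re → LSeries (xl χ) s = G s) ∧
    ∀ s : ℂ, 1 - ω / 4 ≤ s.re → s.re ≤ 2 → |s.im| ≤ T - 2 → DifferentiableAt ℂ G s ∧ ‖G s‖ ≤ C * (lq Q s.im * Real.exp (ω * lq Q s.im) / ω) ^ 8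

/-- conclusion of `S_GEX` -/
def S_GEX' : Prop := ∃ C : ℝ, 1 ≤ C ∧ ∀ (Q : ℕ) [NeZero Q] (χ : DirichletCharacter ℂ Q), (χ ≠ 1 ∨ Q = 1) → ∀ ω T : ℝ, 0 < ω → ω ≤ 1 / 4 → ZFL χ ω T →
  ∃ G : ℂ → ℂ, (∀ s : ℂ, 1 < s.re → LSeries (xl χ) s = G s) ∧
    ∀ s : ℂ, 1 - ω / 4 ≤ s.re → s.re ≤ 2 → |s.im| ≤ T - 2 → DifferentiableAt ℂ G s ∧ ‖G s‖ ≤ C * (lq Q s.im * Real.exp (ω * lq Q s.im) / ω) ^ 8

/-! ## Layer B: smoothed sums -/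

/-- `∑ a(n) n^{-1-iξ₀} hat(u - log n)` -/
noncomputable def PG (a : ℕ → ℂ) (u ξ₀ : ℝ) : ℂ := ∑' n : ℕ, LSeries.term a ⟨1, ξ₀⟩ n * ((hat (u - Real.log n) : ℝ) : ℂ)

/-- the integers near `e^u` with weight `a`, convolved with `c` -/
noncomputable def FG (a : ℕ → ℂ) (u h : ℝ) (N : ℕ) (L : Finset ℕ) (c : ℕ → ℂ) (x : ℝ) : ℂ :=
  ∑ n ∈ Ioc 0 N, (a n * ((1 / n * hat (u - Real.log n) : ℝ) : ℂ)) * ggC h L c (x - Real.log n)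

/-- smoothed sum in a short window -/
noncomputable def TG (a : ℕ → ℂ) (h : ℝ) (N : ℕ) (z : ℝ) : ℂ := ∑ n ∈ Ioc 0 N, a n * ((1 / n : ℝ) : ℂ) * triC h (z - Real.log n)

/-- **PLB** (contour shift, general bounded coefficients; adapt `PX_eq` and `PX_bound`, `W66/LC.lean`, with `a` in place of `Xa χ`, `G` in place of `-DX χ`, `η` given). Proof. `PG a u ξ₀ = ∫ LSeries a (1 + iξ₀ + vert c ξ) kap(vert c ξ) e^{(vert c ξ) u} dξ`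
with `c = 1/u` (absolutely convergent, `‖LSeries a‖ ≤ ζ(1 + c) ≤ 1 + u ≤ 2u`). The part `|τ| > R` is `≤ C u/R` (`‖kap s‖ ≤ C/(1 + τ²)`, `e^{cu} = e`). The part `|τ| ≤ R` is moved to `Re = -η` (rectangle, `G` is differentiable there):
the horizontal sides are `≤ C B/R²`, the new vertical side is `≤ C B e^{-ηu}`. -/
def S_PLB : Prop := ∃ C : ℝ, 0 < C ∧ ∀ (a : ℕ → ℂ) (G : ℂ → ℂ) (η B T u ξ₀ R : ℝ), (∀ n, ‖a n‖ ≤ 1) → 0 < η → η ≤ 1 → 0 ≤ B → 1 ≤ u → 1 ≤ R → |ξ₀| + R ≤ T →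
  (∀ s : ℂ, 1 < s.re → LSeries a s = G s) → (∀ s : ℂ, 1 - η ≤ s.re → s.re ≤ 2 → |s.im| ≤ T → DifferentiableAt ℂ G s ∧ ‖G s‖ ≤ B) →
  ‖PG a u ξ₀‖ ≤ C * (B * (Real.exp (-(η * u)) + 1 / R ^ 2) + u / R)

/-- **DSP** (dispersion; adapt `FX_continuous`, `FX_sq_integrable`, `PX_fin`, `four_FX`, `dispersionX` in `W66/LD.lean`: nothing about `Λ` is used there). -/
def S_DSP : Prop := ∀ (a : ℕ → ℂ) (u h : ℝ) (N : ℕ) (L : Finset ℕ) (c : ℕ → ℂ), 0 < h → Real.exp (u + 1) ≤ N →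
  Continuous (FG a u h N L c) ∧ Integrable (fun x => ‖FG a u h N L c x‖ ^ 2) ∧
  ∀ M : ℝ, 0 ≤ M → (∀ ξ : ℝ, ‖PG a u (2 * π * ξ)‖ * ‖𝓕 (boxC h) ξ‖ ≤ M) → ∫ x, ‖FG a u h N L c x‖ ^ 2 ≤ M ^ 2 * ∫ x, ‖bbC h L c x‖ ^ 2

/-- **MBL** (from GEX', PLB; adapt `S_MBX`, `Pool/Agent/Q151/SZ/Mbx.lean`). Proof. Let `|ξ| ≤ Z^{D+1}/h = Z^{D+1} e^lam`, `ξ₀ = 2πξ`, `R = Z^{D+90}`; `|ξ₀| + R ≤ 7 Z^{D+1} e^lam + Z^{D+90} ≤ e^{3 lam} - 2 ≤ T - 2` (`11 Z^{D+90} ≤ e^{√Z} ≤ e^lam`). For `|Im s| ≤ |ξ₀| + R`: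
`lq ≤ log Q + log (8 Z^{D+1} e^lam + Z^{D+90} + 3) ≤ 4 lam ≤ 4 Z`, `e^{ω lq} ≤ e^{4 ω lam} ≤ Z^4`, `1/ω ≤ Z`: GEX' gives `B ≤ C (4 Z^6)^8 ≤ C' Z^48`. PLB with `η = ω/4`, `T - 2` in place of `T`: `e^{-ωu/4} ≤ Z^{-(D+90)}`
(as `4 (D + 90) log Z ≤ ω u`), total `≤ C (Z^{48-D-90} + Z^{48 - 2D - 180} + 2Z · Z^{-D-90}) ≤ K Z^{-D}`, and `‖𝓕 (boxC h)‖ ≤ 1`. For `|ξ| > Z^{D+1}/h`: `‖PG‖ ≤ ∑_{|log n - u| ≤ 1} 1/n ≤ 4` and `‖𝓕 (boxC h) ξ‖ ≤ 1/(π h |ξ|) ≤ Z^{-D-1}` (`norm_four_box_le`). -/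
def S_MBL : Prop := S_GEX' → S_PLB → ∀ D : ℕ, ∃ K : ℝ, 0 < K ∧ ∀ (Q : ℕ) [NeZero Q] (χ : DirichletCharacter ℂ Q), (χ ≠ 1 ∨ Q = 1) →
  ∀ Z lam h ω T u : ℝ, 20 ≤ Z → 11 * (Z ^ (D + 90) * Real.exp (-√Z)) ≤ 1 → √Z ≤ lam → lam ≤ Z → Real.log Q ≤ lam → h = Real.exp (-lam) →
  0 < ω → ω ≤ 1 / 4 → ω * lam ≤ Real.log Z → 1 ≤ ω * Z → Real.exp (3 * lam) ≤ T → ZFL χ ω T →
  1 ≤ u → 4 * (D + 90) * Real.log Z ≤ ω * u → u ≤ Z + 4 → ∀ ξ : ℝ, ‖PG (xl χ) u (2 * π * ξ)‖ * ‖𝓕 (boxC h) ξ‖ ≤ K / Z ^ D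

/-- conclusion of `S_MBL` -/
def S_MBL' : Prop := ∀ D : ℕ, ∃ K : ℝ, 0 < K ∧ ∀ (Q : ℕ) [NeZero Q] (χ : DirichletCharacter ℂ Q), (χ ≠ 1 ∨ Q = 1) →
  ∀ Z lam h ω T u : ℝ, 20 ≤ Z → 11 * (Z ^ (D + 90) * Real.exp (-√Z)) ≤ 1 → √Z ≤ lam → lam ≤ Z → Real.log Q ≤ lam → h = Real.exp (-lam) →
  0 < ω → ω ≤ 1 / 4 → ω * lam ≤ Real.log Z → 1 ≤ ω * Z → Real.exp (3 * lam) ≤ T → ZFL χ ω T →
  1 ≤ u → 4 * (D + 90) * Real.log Z ≤ ω * u → u ≤ Z + 4 → ∀ ξ : ℝ, ‖PG (xl χ) u (2 * π * ξ)‖ * ‖𝓕 (boxC h) ξ‖ ≤ K / Z ^ D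

/-- **KTL** (decomposition; adapt `KT_ineqX`, `W66/LF.lean`). Proof. As arithmetic functions `λ = λ * (muw w * ζ) + λ * aw w` (`aw w = 1 - muw w * ζ`, `aw_apply`) and `λ * ζ` is the indicator `sq` of the squares. `conv_sumX` for both parts.
(i) `∑ χ(n) (sq * muw w)(n)/n tri`: at most `(1/h) ∑ 1/n` over `n = a² d`, `d ≤ w`, `|log n - z| ≤ h`: `≤ (e^{1-z}/h) ∑_{d ≤ w} √(e^{z+1}/d) ≤ 9 √w e^{-z/2}/h`. (ii) `∑_k χ(k)λ(k)/k ggC(z - log k)`: split with `rp u0` (`typeIIX` with `λ` in place of `Λ`;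
`hat_partition_rp`): the sum over `u` of `FG`, and `∑_k (χλ)(k)/k (1 - rp u0 (log k)) ggC(z - log k)`, where only `log k < u0` contribute, `∑_{k < e^{u0}} 1/k ≤ 1 + u0`, `Z - u0 ≤ z - log k ≤ z`. -/
def S_KTL : Prop := ∀ (Q : ℕ) [NeZero Q] (χ : DirichletCharacter ℂ Q) (h z Z ε : ℝ) (w N u0 U : ℕ), 0 < h → h ≤ 1 → 1 ≤ w → Z ≤ z → z ≤ Z + 1 → 1 ≤ u0 → u0 ≤ U →
  Z + 2 ≤ U → Real.exp (U + 1) ≤ N → Real.log w + u0 + 3 ≤ Z →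
  (∀ x : ℝ, Z - u0 ≤ x → x ≤ z → ‖ggC h (Ioc 0 N) (fun l => χ l * ((aw w l / l : ℝ) : ℂ)) x‖ ≤ ε) →
  ‖TG (xl χ) h N z - ∑ u ∈ Icc u0 U, FG (xl χ) u h N (Ioc 0 N) (fun l => χ l * ((aw w l / l : ℝ) : ℂ)) z‖ ≤ 9 * √(w : ℝ) * Real.exp (-(Z / 2)) / h + (1 + u0) * ε

/-- **HYBL** (from MBL', LSB, KTL, DSP; adapt `Pool/Agent/Q151/SZ/Hyb.lean`). Parameters: `D = A + 6`, `w = ⌈F² e^lam⌉`, `u0 = ⌈4 (D + 90) log Z / ω⌉ ≤ Z/4 + 1` (`C₀ ≥ 16 (D + 90)`), `U = ⌈Z + 2⌉`, `N' = ⌈exp (U + 1)⌉`. For every primitive `χ` mod `f ≤ F`, `f = 1` included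
(`f > 1`: `χ ≠ 1`; conductor `f`): KTL with `ε = w f · 48 e^{u0 - Z}/h²` (`ggC_small`) if `f > 1` and `ε = |mz w| + w · 32 e^{u0 - Z}/h²` if `f = 1` (`gg_small`; `ggC` of the real coefficients is the complexification of `gg`), `|mz w| ≤ C/(log w)^{4A+40} ≤ C/Z^{2A+20}`
(`log w ≥ lam ≥ √Z`; this bound of `mz` is in the proof of `KT`, `W66/PH.lean`). Everything except the sum of the `FG` is `≤ e^{-Z/4}` or (`f = 1`) `≤ Z^{-A-5}`. The sum of the `FG`: Cauchy-Schwarz over `≤ 2Z` values of `u`, DSP with `M = K/Z^D` (MBL', `χ ≠ 1 ∨ f = 1`),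
LSB for the coefficients `aw w l/l` (zero for `l ≤ w`, `w ≥ F²/h`; the sum over `f ∈ Icc 1 F` contains `f = 1`) and `∑ l (aw w l/l)² ≤ (2Z)⁴` (`aw_sum`). `TG` does not depend on `N ≥ exp (z + h)` (as `TX_indep`). -/
def S_HYBL : Prop := S_MBL' → S_LSB → S_KTL → S_DSP → ∀ A : ℕ, ∃ (C₀ Z₀ : ℝ), 1 ≤ C₀ ∧ 1 ≤ Z₀ ∧ ∀ (F : ℕ) (Z lam h ω T : ℝ), Z₀ ≤ Z → √Z ≤ lam → C₀ * lam ≤ Z →
  1 ≤ F → Real.log F ≤ lam → h = Real.exp (-lam) → 0 < ω → ω ≤ 1 / 4 → ω * lam ≤ Real.log Z → C₀ * Real.log Z ≤ ω * Z → Real.exp (3 * lam) ≤ T →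
  (∀ (f : ℕ) [NeZero f], f ≤ F → ∀ χ : DirichletCharacter ℂ f, χ.IsPrimitive → ZFL χ ω T) →
  ∀ N : ℕ, Real.exp (Z + 2) ≤ N →
  ∑ f ∈ Icc 1 F, ((f : ℝ) / Nat.totient f) * ∑ χ ∈ prim f, ∫ z in Z..(Z + 1), ‖TG (xl χ) h N z‖ ^ 2 ≤ 1 / Z ^ A

/-- conclusion of `S_HYBL` -/
def S_HYBL' : Prop := ∀ A : ℕ, ∃ (C₀ Z₀ : ℝ), 1 ≤ C₀ ∧ 1 ≤ Z₀ ∧ ∀ (F : ℕ) (Z lam h ω T : ℝ), Z₀ ≤ Z → √Z ≤ lam → C₀ * lam ≤ Z →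
  1 ≤ F → Real.log F ≤ lam → h = Real.exp (-lam) → 0 < ω → ω ≤ 1 / 4 → ω * lam ≤ Real.log Z → C₀ * Real.log Z ≤ ω * Z → Real.exp (3 * lam) ≤ T →
  (∀ (f : ℕ) [NeZero f], f ≤ F → ∀ χ : DirichletCharacter ℂ f, χ.IsPrimitive → ZFL χ ω T) →
  ∀ N : ℕ, Real.exp (Z + 2) ≤ N →
  ∑ f ∈ Icc 1 F, ((f : ℝ) / Nat.totient f) * ∑ χ ∈ prim f, ∫ z in Z..(Z + 1), ‖TG (xl χ) h N z‖ ^ 2 ≤ 1 / Z ^ A

/-- **SHL** (sharp cut-offs with an additive twist; adapt `Pool/Agent/Q145/SZ/SHARP.lean`, first part, with `κ = 0` and bounded coefficients `a` in place of `Λ χ`). Proof. `G(β) = ∫_n^{n'} ee(yβ) TG (log y) dy = ∫_{log n}^{log n'} e^z ee(e^z β) TG z dz` has coefficient `k(m)` at `a_m`,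
`|k(m) - ee(mβ)| ≤ C h (1 + Y|β|)` for `log n + h ≤ log m ≤ log n' - h`, `|k(m)| ≤ 2` within `h` of an endpoint, `k(m) = 0` elsewhere; so `|∑_{n < u ≤ n'} a_u ee(uβ) - G(β)| ≤ C h Y (1 + Y|β|)`. Plancherel: `∫ |G|² ≤ ∫_n^{n'} |TG (log y)|² dy ≤ 4Y ∫_{log n}^{log n'} |TG|²`. -/
def S_SHL : Prop := ∃ C : ℝ, 0 < C ∧ ∀ (a : ℕ → ℂ) (Y n n' N : ℕ) (B h : ℝ), (∀ n, ‖a n‖ ≤ 1) → 3 ≤ Y → Y ≤ n → n ≤ n' → n' ≤ 4 * Y →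
  0 < h → h ≤ 1 / 4 → 1 ≤ h * Y → 0 ≤ B → B ≤ 1 → Real.exp (Real.log Y + 4) ≤ N →
  ∫ β in (-B)..B, ‖∑ u ∈ Ioc n n', a u * ee (u * β)‖ ^ 2 ≤
    C * Y * (∫ z in (Real.log Y)..(Real.log Y + 2), ‖TG a h N z‖ ^ 2) + C * B * (h * Y * (1 + Y * B)) ^ 2

/-- the mean square estimate for the Liouville function, at all scales `Y ∈ [X / F, X]` -/
def ML (A X F : ℕ) : Prop := ∀ Y : ℕ, X ≤ F * Y → Y ≤ X → ∀ n n' : ℕ, Y ≤ n → n ≤ n' → n' ≤ 4 * Y →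
  ∑ f ∈ Icc 1 F, ((f : ℝ) / Nat.totient f) * ∑ χ ∈ prim f, ∫ β in (-((F : ℝ) / Y))..((F : ℝ) / Y), ‖∑ u ∈ Ioc n n', xl χ u * ee (u * β)‖ ^ 2 ≤ Y / Real.log X ^ A

/-- **MSL** (from HYBL', SHL; the same shape as `S_MS`, see `Pool/Agent/Q151/SZ/Ms.lean`). Proof. `L = log X`, `L/2 ≤ log Y ≤ L`. Let `ω' = 2 C' log L / L ≤ ω` (`C'` the constant of HYBL' for `A + 3`), `lam = max (20 log F) (2 √L)`, `h = e^{-lam}` (`1 ≤ hY`), `T' = e^{3 lam} ≤ T`.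
`ω' lam ≤ log Z` for `Z = log Y` or `log Y + 1` (from `C₀ log F log L ≤ L`). Zero-free: `f > 1`: ZF F ω T; `f = 1`: the classical zero-free region of `ζ` in `W66/ZC.lean` (`ρ.re ≤ 1 - c/ell ρ.im`; `ell ≤ 3 lam + 2`, `ω' (3 lam + 2) < c`; `DirichletCharacter.LFunction_modOne_eq`).
HYBL' on `[log Y, log Y + 1]` and `[log Y + 1, log Y + 2]` for each `χ`, then SHL with `a = xl χ`, `B = F/Y` (`Y B = F`): the error terms are `≤ C (F/Y)(h Y (1 + F))² ≤ 4 C Y F³ h²` per character, at most `F²` characters with weights `≤ F`: `≤ C Y F⁶ e^{-2 lam}`, which is `≤ Y/(2 L^A)` since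
`e^{-lam} ≤ F^{-20}` and `e^{-lam} ≤ e^{-2√L}`. (If `F = 1` only `f = 1` occurs.) -/
def S_MSL : Prop := S_HYBL' → S_SHL → ∀ A : ℕ, ∃ (C₀ : ℝ) (X₀ : ℕ), 1 ≤ C₀ ∧ ∀ (X F : ℕ) (ω T : ℝ), X₀ ≤ X → 1 ≤ F →
  C₀ * Real.log F * Real.log (Real.log X) ≤ Real.log X → 0 < ω → ω ≤ 1 / 4 → C₀ * Real.log (Real.log X) ≤ ω * Real.log X →
  (F : ℝ) ^ 60 ≤ T → Real.exp (6 * √(Real.log X)) ≤ T → ZF F ω T → ML A X F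

/-- conclusion of `S_MSL` -/
def S_MSL' : Prop := ∀ A : ℕ, ∃ (C₀ : ℝ) (X₀ : ℕ), 1 ≤ C₀ ∧ ∀ (X F : ℕ) (ω T : ℝ), X₀ ≤ X → 1 ≤ F →
  C₀ * Real.log F * Real.log (Real.log X) ≤ Real.log X → 0 < ω → ω ≤ 1 / 4 → C₀ * Real.log (Real.log X) ≤ ω * Real.log X →
  (F : ℝ) ^ 60 ≤ T → Real.exp (6 * √(Real.log X)) ≤ T → ZF F ω T → ML A X F

/-! ## Layer C: the circle -/

open Classical in
/-- **GSL** (from characters to fractions, complete multiplicativity of `λ`). Proof. Write `u = g u'`, `g = (u, q)`, `D = q/g`: `ee(u r/q) = ee(u' r/D)` with `(u' r, D) = 1`, `= (1/φ(D)) ∑_{χ mod D} τ(χ̄) χ(u' r)`. Group the characters by the primitive `ψ` mod `f | D` inducing them: `τ(ψ̄_D) = 0`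
unless `D/f` is squarefree and prime to `f`, and `|τ(ψ̄_D)|² ≤ f` (`Pool/Agent/Q145/SZ/GS.lean`, `Pool/Agent/Helper112/MultLS.lean` have these Gauss sum facts). So the sum at `r/q + β` is `∑_{f | q} ∑_ψ ψ_q(r) A_{q,ψ}` with, `k = q/f`,
`|A_{q,ψ}| ≤ (√f/φ(f)) ∑_{g k' = k, k' squarefree, (k', f) = 1} φ(k')^{-1} |∑_{(u', k') = 1} λψ(u') ee(g u' β)|`, and the inner sum is `∑_{d | k'} μ(d) λ(d) ψ(d) ∑_{u''} λψ(u'') ee(g d u'' β)`, `u'' ∈ (n/(gd), n'/(gd)]`. With `T(j) = |∑_{u ∈ (n/j, n'/j]} λψ(u) ee(u j β)|`,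
`j = gd`, `∑_{d | j} μ²(d)/φ(d) = j/φ(j)`: `|A_{q,ψ}| ≤ (√f/φ(f)) ∑_{j | k} (j/φ(j)) T(j)/φ(k/j)`. Orthogonality over `r` (different `ψ` give different characters mod `q`): `∑_r |...|² = φ(q) ∑_ψ |A_{q,ψ}|²`, `φ(q) ≤ φ(f) k`. With `j/φ(j) ≤ 2 + 2 log Q`,
`∑_k k (∑_{j | k} (j/k) T(j))² ≤ ∑_k (τ(k)/k) ∑_{j | k} j² T(j)² ≤ ∑_j j τ(j) T(j)² ∑_{l ≤ Q} τ(l)/l` and `∑_{l ≤ Q} τ(l)/l ≤ (1 + log Q)²`. -/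
def S_GSL : Prop := ∃ C : ℝ, 0 < C ∧ ∀ (Q n n' : ℕ) (β : ℝ), 1 ≤ Q → n ≤ n' →
  ∑ q ∈ Icc 1 Q, ∑ r ∈ (range q).filter (fun r => r.Coprime q), ‖∑ u ∈ Ioc n n', ((lm u : ℝ) : ℂ) * ee (u * ((r : ℝ) / q + β))‖ ^ 2 ≤
  C * (1 + Real.log Q) ^ 6 * ∑ j ∈ Icc 1 Q, (j : ℝ) * (j.divisors.card : ℝ) * ∑ f ∈ Icc 1 Q, ((f : ℝ) / Nat.totient f) * ∑ χ ∈ prim f,
    ‖∑ u ∈ Ioc (n / j) (n' / j), xl χ u * ee (u * (j * β))‖ ^ 2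

/-- **MAJL** (from GSL; see `Pool/Agent/Q272/SZ/MAJ.lean`). Proof. `α ∈ [0, 1] ∩ Maj Q 1 X`: `|qα - k| ≤ Q/X`, `q ≤ Q`; reduce `k/q = r/q'`: `α = r/q' + β`, `|β| ≤ Q/X`, `0 ≤ r ≤ q'` (`r = q'` only for `q' = 1`, where `ee(u(1 + β)) = ee(uβ)`). So the integral is at most
`2 ∑_{q ≤ Q} ∑_r ∫_{-Q/X}^{Q/X} |...|² dβ`. GSL, `β' = jβ`: `∫_{|β| ≤ Q/X} |S(jβ)|² dβ = (1/j) ∫_{|β'| ≤ jQ/X} |S|²`, and ML with `Y = X / j` (`X ≤ 2Q Y`, `Y ≤ n/j`, `n'/j ≤ 3X/j ≤ 4Y`, `jQ/X ≤ 2Q/Y`; the sum over `f ≤ Q` is part of the sum over `f ≤ 2Q`) bounds the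
sum over the characters by `(1/j) (X/j)/L^A`. `∑_j j τ(j)/j² ≤ (1 + log Q)²`. -/
def S_MAJL : Prop := S_GSL → ∃ (C : ℝ) (X₀ : ℕ), 0 < C ∧ ∀ (A Q X : ℕ), X₀ ≤ X → 1 ≤ Q → (Q : ℝ) ^ 40 ≤ X → ML A X (2 * Q) →
  ∀ n n' : ℕ, X ≤ n → n ≤ n' → n' ≤ 3 * X →
  ∫ α in Set.Icc (0 : ℝ) 1 ∩ Maj Q 1 X, ‖∑ u ∈ Ioc n n', ((lm u : ℝ) : ℂ) * ee (u * α)‖ ^ 2 ≤ C * (1 + Real.log Q) ^ 8 * X / Real.log X ^ A

/-- **MINL** (minor arcs). Proof. `λ(u) = ∑_{a² m = u} μ(m)` (`liou_split` in `Pool/Agent/H373R2/T7/SupLiou.lean`). For `a ≤ Q^{1/4}`: Dirichlet gives `1 ≤ q_a ≤ X/Q` and `c` prime to `q_a` with `|q_a a² α - c| ≤ Q^{1/2} a²/ X`-type bound; precisely with `N_a = X/a²`, `Q_a = Q/a²`: `q_a ≤ N_a/Q_a = X/Q`,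
`|q_a a² α - c| ≤ Q_a/N_a = Q/X`. If `q_a a² ≤ Q` this says `α ∈ Maj Q 1 X`; so `q_a > Q/a² ≥ Q^{1/2}`, and `|a²α - c/q_a| ≤ 1/q_a²`. `block_mu` (`Pool/Agent/H373R2/T7/MinorMu.lean`; two or three dyadic blocks of `(n/a², n'/a²]`, `U = ⌊X^{1/5}⌋`-ish) gives
`≤ N_a (log X)^{10} / Q^{1/4}`. Sum over `a`: `≤ 2 X (log X)^{10}/Q^{1/4}`; the `a > Q^{1/4}` contribute at most `∑ (3X/a² + ...) ≤ 8X/Q^{1/4}` (`a² ≤ 3X`). -/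
def S_MINL : Prop := ∃ X₀ : ℕ, ∀ (Q X n n' : ℕ) (α : ℝ), X₀ ≤ X → Real.log X ^ 60 ≤ Q → (Q : ℝ) ≤ (X : ℝ) ^ (1 / 10 : ℝ) →
  X ≤ n → n ≤ n' → n' ≤ 3 * X → α ∉ Maj Q 1 X →
  ‖∑ u ∈ Ioc n n', ((lm u : ℝ) : ℂ) * ee (u * α)‖ ≤ X * Real.log X ^ 12 / (Q : ℝ) ^ (1 / 4 : ℝ)

/-- the correlations of the Liouville function are small outside a small set of pairs -/
def LCc (A z X : ℕ) : Prop := ∃ E : Finset (ℕ × ℕ), (E.card : ℝ) ≤ (X : ℝ) ^ 2 / (PW z : ℝ) ^ A ∧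
  ∀ n ∈ Ioc X (2 * X), ∀ m ∈ Ioc X (2 * X), n ≠ m → (n, m) ∉ E → |∑ s ∈ Icc 1 X, lm (n + s) * lm (m + s)| ≤ X / Real.log X ^ A

/-- **LCOR** (from ENG, MAJL, MINL). Proof. `W = PW z`, `Q = W^b`, `b = 8A + 16`, `A' = 2A + 20`; `C₁` large: `W ≥ e^{z/2} ≥ L^{C₁/2}` and `Q^{40} ≤ 4^{40 b z} ≤ X` (PWB). Fix `n ∈ (X, 2X]`. ENG with modulus `1`, `M = 3X`, `F u = lm u [n < u ≤ n + X]`, `G u = lm u [X < u ≤ 3X]`, `F' = G' = 0`, `E = Maj Q 1 X`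
(closed and `1`-periodic), `δ = X L^{12}/Q^{1/4}` (MINL), `DF, DG ≤ C (1 + log Q)^8 X/L^{A'} ≤ X/L^{2A+4}` (MAJL), `EF = 0`, `EG = 2X`. For `m ∈ (X, 2X]`: `cor (3X) 1 F G 0 (m - n) = ∑_{s ≤ X} lm(n+s) lm(m+s) = R₁ + R₂`, `|R₁|² ≤ 2 DF EG ≤ X²/(4 L^{2A})`,
`∑_m |R₂(m - n)|² ≤ 2 δ² · 2X`, so `|R₂| ≤ X/(2L^A)` for all but `16 δ² L^{2A}/X ≤ X L^{2A+30}/Q^{1/2} ≤ X/W^A` values of `m`. `E` is the set of the exceptional `(n, m)`. -/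
def S_LCOR : Prop := S_ENG → S_MAJL → S_GSL → S_MINL → S_PWB → ∀ A : ℕ, ∃ (b A' C₁ X₀ : ℕ), ∀ z X : ℕ, X₀ ≤ X →
  C₁ * Real.log (Real.log X) ≤ z → C₁ * (z : ℝ) ≤ Real.log X → ML A' X (2 * PW z ^ b) → LCc A z X

/-- **PNL**: the prime number theorem for `λ` (`sup_liou`, `Pool/Agent/H373R2/T7/SupLiou.lean`, at `α = 0`, for `N = n + X` and `N = n`). -/
def S_PNL : Prop := ∀ A : ℕ, ∃ X₀ : ℕ, ∀ X : ℕ, X₀ ≤ X → ∀ n ∈ Ioc X (2 * X), |∑ t ∈ Icc 1 X, lm (n + t)| ≤ X / Real.log X ^ A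

/-! ## Layer D: moments -/

open Classical in
/-- **MOME** (the exceptional and the diagonal pairs; parts (b), (c) of the proof of `S_MOM2`, `Pool/Agent/Q58/SZ/Mom2.lean`). Proof. `(∑_{s ∈ Sb} ∏_i wt(n + s_i) wt(m + s_i)) / |Sb| = ∏_i B2 X n m (b i)`. It vanishes unless all `b_i ∈ Us n m`, i.e. `n, m ∈ Gs b`; then with `v = vv W ≥ 1`,
`1/Mb² = W²/(X² |Gs b|² v^{2K})`. So for `n ≠ m`: `∑_{b ∈ Ad} (...)/Mb² ≤ (W²/X²) C₀^K S^K ∑_b w2 n m b ≤ (W²/X²) C₀^K S^K |Ad|`, for `n = m`: `≤ (W²/X²) D₀^K |Ad|`. Sum over the pairs. -/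
def S_MOME : Prop := ∀ (W : ℕ) [NeZero W] (X K : ℕ) (C₀ D₀ e₂ : ℝ) (S : ℕ → ℕ → ℝ) (E : Finset (ℕ × ℕ)),
  W ≤ X → 0 ≤ C₀ → 0 ≤ D₀ → 0 ≤ e₂ → (∀ n m, 0 < S n m) →
  (∀ n ∈ Ioc X (2 * X), ∀ m ∈ Ioc X (2 * X), ∀ β : ZMod W, β ∉ Us (n : ZMod W) (m : ZMod W) → B2 X n m β = 0) →
  (∀ n ∈ Ioc X (2 * X), ∀ m ∈ Ioc X (2 * X), n ≠ m → ∀ β : ZMod W, B2 X n m β ≤ C₀ * vv W ^ 2 * S n m) →
  (∀ n ∈ Ioc X (2 * X), ∀ β : ZMod W, B2 X n n β ≤ D₀) →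
  (∑ q ∈ E.filter (fun q => q.1 ∈ Ioc X (2 * X) ∧ q.2 ∈ Ioc X (2 * X) ∧ q.1 ≠ q.2), S q.1 q.2 ^ K ≤ e₂ * (X : ℝ) ^ 2) →
  ∑ b ∈ Ad W K, (∑ s ∈ Sb X b, (∑ q ∈ (Ioc X (2 * X) ×ˢ Ioc X (2 * X)).filter (fun q => q ∈ E ∨ q.1 = q.2), ∏ i, wt (q.1 + s i) * wt (q.2 + s i)) / Mb X b ^ 2) / (Sb X b).card ≤
    ((W : ℝ) ^ 2 * C₀ ^ K * e₂ + (W : ℝ) ^ 2 * D₀ ^ K / X) * (Ad W K).card

/-- **SGN** (second moment over the shifts of the Liouville factors). Proof. `2^L #{n ∈ P : f(n + t_j) = ε_j ∀ j} = ∑_{n ∈ P} x_n(t)`, `x_n(t) = ∏_j (1 + ε_j f(n + t_j))` (`ε_j, f = ±1`). The `t_j` are independent and uniform on `Icc 1 X`, so with `E` = mean over `t`: `E x_n = ∏_j (1 + ε_j μ_n)`, `|μ_n| ≤ δ`, and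
`E x_n x_m = ∏_j (1 + ε_j μ_n + ε_j μ_m + c_{nm})`, `c_{nm} = E f(n + t) f(m + t)`. `E (∑ x_n - |P|)² = ∑_{n,m} (E x_n x_m - E x_n - E x_m + 1)`. `(n, m) ∉ E`: `|E x_n x_m - 1| ≤ (1 + 3δ)^L - 1 ≤ 6 L δ` (as `3 L δ ≤ 1`), `|E x_n - 1| ≤ 2 L δ`: the term is `≤ 10 L δ`.
`(n, m) ∈ E`: `E x_n x_m ≤ (2 + 2δ)^L ≤ 2^{L+1}`, `E x_n ≥ 1 - 2Lδ ≥ 1/3`: the term is `≤ 2^{L+1} + 1 ≤ 2^{L+2}`. -/
def S_SGN : Prop := ∀ (X L : ℕ) (P : Finset ℕ) (E : Finset (ℕ × ℕ)) (f : ℕ → ℝ) (ε : Fin L → ℝ) (δ : ℝ), 1 ≤ X → 0 ≤ δ → 3 * L * δ ≤ 1 → (∀ n, f n = 1 ∨ f n = -1) → (∀ j, ε j = 1 ∨ ε j = -1) →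
  (∀ n ∈ P, |∑ t ∈ Icc 1 X, f (n + t)| ≤ δ * X) →
  (∀ n ∈ P, ∀ m ∈ P, (n, m) ∉ E → |∑ t ∈ Icc 1 X, f (n + t) * f (m + t)| ≤ δ * X) →
  ∑ t ∈ Fintype.piFinset (fun _ : Fin L => Icc 1 X), ((2 : ℝ) ^ L * ((P.filter fun n => ∀ j, f (n + t j) = ε j).card : ℝ) - (P.card : ℝ)) ^ 2 ≤
    (X : ℝ) ^ L * (10 * L * δ * (P.card : ℝ) ^ 2 + 2 ^ (L + 2) * (((P ×ˢ P).filter fun q => q ∈ E).card : ℝ))

end Pool.Agent.Q145.HC
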